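import Mathlib

/-!
# Mad families of block subspaces: basic notions

`E` is the vector space `ℕ →₀ F` of finitely supported functions, with Hamel basis `e_n`.
-/

namespace Pool.Agent.MadBlock

variable {F : Type*} [Field F]

/-- `x < y` for nonzero vectors of `E = ℕ →₀ F`: `max supp x < min supp y`, that is, every index in
the support of `x` is smaller than every index in the support of `y`. -/
def Bef (x y : ℕ →₀ F) : Prop := ∀ i ∈ x.support, ∀ j ∈ y.support, i < j

/-- `x 0 < x 1 < x 2 < ...` is an infinite block sequence of nonzero vectors. -/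
def IsBlockSeq (x : ℕ → (ℕ →₀ F)) : Prop := ∀ n, x n ≠ 0 ∧ Bef (x n) (x (n + 1))

/-- A block subspace of `E`: the span of an infinite block sequence. -/
def IsBlockSubspace (V : Submodule F (ℕ →₀ F)) : Prop :=
  ∃ x : ℕ → (ℕ →₀ F), IsBlockSeq x ∧ V = Submodule.span F (Set.range x)

/-- Two subspaces are almost disjoint if their intersection is finite-dimensional. -/
def AlmostDisjoint (V W : Submodule F (ℕ →₀ F)) : Prop :=
  FiniteDimensional F (V ⊓ W : Submodule F (ℕ →₀ F))

/-- A mad family of block subspaces over `F`: a family of pairwise almost disjoint block subspaces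
such that no block subspace is almost disjoint from every member of the family. -/
def IsMadFamily (A : Set (Submodule F (ℕ →₀ F))) : Prop :=
  (∀ V ∈ A, IsBlockSubspace V) ∧
  (∀ V ∈ A, ∀ W ∈ A, V ≠ W → AlmostDisjoint V W) ∧
  (∀ V, IsBlockSubspace V → ∃ W ∈ A, ¬ AlmostDisjoint V W)

/-- The set of codes of a family of block subspaces: all block sequences whose span belongs to the
family.  Block sequences are points of the space `ℕ → (ℕ →₀ F)`. -/
def Codes (A : Set (Submodule F (ℕ →₀ F))) : Set (ℕ → (ℕ →₀ F)) :=
  {x | IsBlockSeq x ∧ Submodule.span F (Set.range x) ∈ A}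

/-- A set of sequences of vectors is closed in the product topology of `ℕ → E`, where `E` carries
the discrete topology (for countable `F` this is a Polish space, homeomorphic to the Baire space). -/
def ClosedInProduct (C : Set (ℕ → (ℕ →₀ F))) : Prop :=
  @IsClosed (ℕ → (ℕ →₀ F)) (@Pi.topologicalSpace ℕ (fun _ => (ℕ →₀ F)) (fun _ => ⊥)) C

end Pool.Agent.MadBlock
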