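import Mathlib
import Pool.Agent.MadBlock.Defs

namespace Pool.Agent.MadBlock

open Submodule

variable {F : Type*} [Field F]

/-- restriction of a vector to the indices `≥ k` -/
noncomputable def tl (k : ℕ) (z : ℕ →₀ F) : ℕ →₀ F := z.filter (fun i => k ≤ i)

/-- restriction of a vector to the indices `< k` -/
noncomputable def hd (k : ℕ) (z : ℕ →₀ F) : ℕ →₀ F := z.filter (fun i => i < k)

theorem tl_apply (k : ℕ) (z : ℕ →₀ F) (i : ℕ) : tl k z i = if k ≤ i then z i else 0 := by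
  simp only [tl, Finsupp.filter_apply]

theorem hd_apply (k : ℕ) (z : ℕ →₀ F) (i : ℕ) : hd k z i = if i < k then z i else 0 := by
  simp only [hd, Finsupp.filter_apply]

theorem hd_add_tl (k : ℕ) (z : ℕ →₀ F) : hd k z + tl k z = z := by
  ext i
  simp only [Finsupp.add_apply, hd_apply, tl_apply]
  by_cases h : i < k
  · simp [h, not_le.mpr h]
  · simp [h, not_lt.mp h]

theorem tl_add (k : ℕ) (y z : ℕ →₀ F) : tl k (y + z) = tl k y + tl k z := by
  ext i; simp only [tl_apply, Finsupp.add_apply]; split_ifs <;> simp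

theorem tl_smul (k : ℕ) (c : F) (z : ℕ →₀ F) : tl k (c • z) = c • tl k z := by
  ext i; simp only [tl_apply, Finsupp.smul_apply]; split_ifs <;> simp

theorem tl_tl (k l : ℕ) (z : ℕ →₀ F) : tl k (tl l z) = tl (max k l) z := by
  ext i
  simp only [tl_apply]
  by_cases h1 : k ≤ i <;> by_cases h2 : l ≤ i <;> simp [h1, h2]

/-- `z` has last nonzero coefficient `1` -/
def Monic (z : ℕ →₀ F) : Prop := ∃ n, z n = 1 ∧ ∀ i, n < i → z i = 0

theorem Monic.ne_zero {z : ℕ →₀ F} (h : Monic z) : z ≠ 0 := by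
  rintro rfl
  obtain ⟨n, h1, _⟩ := h
  simp at h1

/-- tails of elements of a subspace -/
def Tl (W : Submodule F (ℕ →₀ F)) : Set (ℕ →₀ F) := {g | ∃ u ∈ W, ∃ k, tl k u = g}

/-- the size measure used for the recursion -/
noncomputable def mu (z : ℕ →₀ F) : ℕ := ∑ i ∈ z.support, 2 ^ i

section
variable (R : (ℕ →₀ F) → (ℕ →₀ F) → Prop)

/-- the span of the ancestors of `y` (including `y`) for the relation saying that `u` is the
parent of `v` -/
noncomputable def Sp (y : ℕ →₀ F) : Submodule F (ℕ →₀ F) :=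
  span F {u | Relation.ReflTransGen (fun u v => R v u) u y}

/-- one step of the recursion -/
def Phi (P : (ℕ →₀ F) → Prop) (z : ℕ →₀ F) : Prop :=
  Monic z ∧ (∃ y, R z y ∧ (y = 0 ∨ (P y ∧ Bef y z))) ∧
  ∀ k, z k ≠ 0 → hd k z ≠ 0 → P (tl k z) → ∀ y, R (tl k z) y → hd k z ∉ Tl (Sp R y)

def Gn : ℕ → (ℕ →₀ F) → Prop
  | 0 => fun _ => False
  | (n+1) => fun z => Phi R (Gn n) z

/-- the set of accepted vectors -/
def G (z : ℕ →₀ F) : Prop := Gn R (mu z + 1) z

end

theorem mu_bef {y z : ℕ →₀ F} (h : Bef y z) (hz : z ≠ 0) : mu y < mu z := by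
  obtain ⟨j, hj⟩ := Finsupp.support_nonempty_iff.mpr hz
  have h1 : mu y < 2 ^ j := by
    unfold mu
    calc ∑ i ∈ y.support, 2 ^ i ≤ ∑ i ∈ Finset.range j, 2 ^ i := by
          apply Finset.sum_le_sum_of_subset
          intro i hi
          exact Finset.mem_range.mpr (h i hi j hj)
      _ < 2 ^ j := by
          have := Nat.geomSum_eq (m := 2) (le_refl 2) j
          simp only [this]
          have : 0 < 2 ^ j := by positivity
          omega
  have h2 : 2 ^ j ≤ mu z := by
    unfold mu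
    exact Finset.single_le_sum (f := fun i => 2 ^ i) (fun i _ => Nat.zero_le _) hj
  omega

theorem mu_tl {z : ℕ →₀ F} {k : ℕ} (h : hd k z ≠ 0) : mu (tl k z) < mu z := by
  unfold mu
  apply Finset.sum_lt_sum_of_subset (i := Classical.choose (Finsupp.support_nonempty_iff.mpr h))
  · intro i hi
    simp only [Finsupp.mem_support_iff, tl_apply] at hi ⊢
    split_ifs at hi with h1
    · exact hi
    · simp at hi
  · have := Classical.choose_spec (Finsupp.support_nonempty_iff.mpr h)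
    simp only [Finsupp.mem_support_iff, hd_apply] at this ⊢
    split_ifs at this with h1
    · exact this
    · simp at this
  · have := Classical.choose_spec (Finsupp.support_nonempty_iff.mpr h)
    simp only [Finsupp.mem_support_iff, hd_apply] at this
    simp only [Finsupp.mem_support_iff, tl_apply, ne_eq, not_not]
    split_ifs at this with h1
    · rw [if_neg (not_le.mpr h1)]
    · simp at this
  · positivity
  · intro j _ _; positivity

theorem Phi_congr (R : (ℕ →₀ F) → (ℕ →₀ F) → Prop) {P Q : (ℕ →₀ F) → Prop} {z : ℕ →₀ F}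
    (h : ∀ y, mu y < mu z → (P y ↔ Q y)) : Phi R P z ↔ Phi R Q z := by
  unfold Phi
  constructor
  · rintro ⟨h1, ⟨y, hy, hy'⟩, h3⟩
    refine ⟨h1, ⟨y, hy, ?_⟩, ?_⟩
    · rcases hy' with h0 | ⟨h4, h5⟩
      · exact Or.inl h0
      · exact Or.inr ⟨(h y (mu_bef h5 h1.ne_zero)).mp h4, h5⟩
    · intro k hk hk' hq y hy
      exact h3 k hk hk' ((h _ (mu_tl hk')).mpr hq) y hy
  · rintro ⟨h1, ⟨y, hy, hy'⟩, h3⟩
    refine ⟨h1, ⟨y, hy, ?_⟩, ?_⟩
    · rcases hy' with h0 | ⟨h4, h5⟩
      · exact Or.inl h0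
      · exact Or.inr ⟨(h y (mu_bef h5 h1.ne_zero)).mpr h4, h5⟩
    · intro k hk hk' hq y hy
      exact h3 k hk hk' ((h _ (mu_tl hk')).mp hq) y hy

theorem Gn_stable (R : (ℕ →₀ F) → (ℕ →₀ F) → Prop) :
    ∀ n z, mu z < n → (Gn R n z ↔ G R z) := by
  intro n
  induction n using Nat.strong_induction_on with
  | _ n ih =>
    intro z hz
    obtain ⟨m, rfl⟩ : ∃ m, n = m + 1 := ⟨n - 1, by omega⟩
    show Phi R (Gn R m) z ↔ Phi R (Gn R (mu z)) z
    apply Phi_congr
    intro y hy
    rw [ih m (by omega) y (by omega)]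
    rw [ih (mu z) (by omega) y hy]

theorem G_iff (R : (ℕ →₀ F) → (ℕ →₀ F) → Prop) (z : ℕ →₀ F) : G R z ↔ Phi R (G R) z := by
  show Phi R (Gn R (mu z)) z ↔ Phi R (G R) z
  apply Phi_congr
  intro y hy
  exact Gn_stable R _ y hy

end Pool.Agent.MadBlock
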