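import Mathlib
import Pool.Agent.MadBlock.Tree

namespace Pool.Agent.MadBlock

open Submodule

variable {F : Type*} [Field F]

/-- requirements on the parent relation -/
structure Good (R : (ℕ →₀ F) → (ℕ →₀ F) → Prop) : Prop where
  func : ∀ z y y', R z y → R z y' → y = y'
  zero : ∀ y, ¬ R 0 y

/-- nodes of the tree: the root `0` and the accepted vectors -/
def Node (R : (ℕ →₀ F) → (ℕ →₀ F) → Prop) (y : ℕ →₀ F) : Prop := y = 0 ∨ G R y

variable {R : (ℕ →₀ F) → (ℕ →₀ F) → Prop}

theorem Sp_zero (hR : Good R) : Sp R 0 = ⊥ := by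
  rw [Sp, span_eq_bot]
  intro x hx
  simp only [Set.mem_ofPred_eq] at hx
  rcases Relation.ReflTransGen.cases_tail hx with h | ⟨v, _, h⟩
  · exact h.symm
  · exact absurd h (hR.zero v)

theorem self_mem_Sp (z : ℕ →₀ F) : z ∈ Sp R z := subset_span Relation.ReflTransGen.refl

theorem Sp_step (hR : Good R) {z y : ℕ →₀ F} (h : R z y) : Sp R z = span F {z} ⊔ Sp R y := by
  unfold Sp
  rw [← span_union]
  congr 1
  ext u
  simp only [Set.mem_ofPred_eq, Set.mem_union, Set.mem_singleton_iff]
  constructor
  · intro hu
    rcases Relation.ReflTransGen.cases_tail hu with h' | ⟨v, hv, h'⟩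
    · exact Or.inl h'.symm
    · rw [hR.func z y v h h']
      exact Or.inr hv
  · rintro (rfl | hu)
    · exact Relation.ReflTransGen.refl
    · exact hu.tail h

theorem mem_Sp_step (hR : Good R) {z y u : ℕ →₀ F} (h : R z y) (hu : u ∈ Sp R z) :
    ∃ c : F, ∃ u' ∈ Sp R y, u = c • z + u' := by
  rw [Sp_step hR h, Submodule.mem_sup] at hu
  obtain ⟨a, ha, b, hb, rfl⟩ := hu
  obtain ⟨c, rfl⟩ := Submodule.mem_span_singleton.mp ha
  exact ⟨c, b, hb, rfl⟩

theorem Sp_le_step (hR : Good R) {z y : ℕ →₀ F} (h : R z y) : Sp R y ≤ Sp R z := by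
  rw [Sp_step hR h]; exact le_sup_right

theorem bef_zero (z : ℕ →₀ F) : Bef 0 z := by
  intro i hi; simp at hi

theorem G.monic {z : ℕ →₀ F} (h : G R z) : Monic z := ((G_iff R z).mp h).1

theorem G.ne_zero {z : ℕ →₀ F} (h : G R z) : z ≠ 0 := h.monic.ne_zero

theorem G.parent {z : ℕ →₀ F} (h : G R z) : ∃ y, R z y ∧ Node R y ∧ Bef y z := by
  obtain ⟨_, ⟨y, hy, hy'⟩, _⟩ := (G_iff R z).mp h
  rcases hy' with rfl | ⟨h1, h2⟩
  · exact ⟨0, hy, Or.inl rfl, bef_zero z⟩
  · exact ⟨y, hy, Or.inr h1, h2⟩

theorem G.noconf {z : ℕ →₀ F} (h : G R z) : ∀ k, z k ≠ 0 → hd k z ≠ 0 → G R (tl k z) →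
    ∀ y, R (tl k z) y → hd k z ∉ Tl (Sp R y) := ((G_iff R z).mp h).2.2

theorem node_induction {P : (ℕ →₀ F) → Prop} (h0 : P 0)
    (hs : ∀ z y, G R z → R z y → Node R y → Bef y z → P y → P z) : ∀ y, Node R y → P y := by
  have key : ∀ n, ∀ y, mu y < n → Node R y → P y := by
    intro n
    induction n with
    | zero => intro y hy; omega
    | succ n ih =>
      intro y hy hN
      rcases hN with rfl | hG
      · exact h0
      · obtain ⟨y', h1, h2, h3⟩ := hG.parent
        have h4 := mu_bef h3 hG.ne_zero
        exact hs y y' hG h1 h2 h3 (ih y' (by omega) h2)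
  intro y hy
  exact key (mu y + 1) y (by omega) hy

theorem node_supp (hR : Good R) : ∀ y, Node R y →
    ∀ u ∈ Sp R y, ∀ i ∈ u.support, ∃ j ∈ y.support, i ≤ j := by
  apply node_induction
  · intro u hu i hi
    rw [Sp_zero hR, Submodule.mem_bot] at hu
    subst hu; simp at hi
  · intro z y hG hzy hN hB ih u hu i hi
    obtain ⟨c, u', hu', rfl⟩ := mem_Sp_step hR hzy hu
    obtain ⟨k, hk⟩ := Finsupp.support_nonempty_iff.mpr hG.ne_zero
    by_cases h : u' i = 0
    · refine ⟨i, ?_, le_refl _⟩
      rw [Finsupp.mem_support_iff] at hi ⊢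
      intro h'
      apply hi
      simp [h, h']
    · obtain ⟨j, hj, hij⟩ := ih u' hu' i (Finsupp.mem_support_iff.mpr h)
      exact ⟨k, hk, le_of_lt (lt_of_le_of_lt hij (hB j hj k hk))⟩

theorem bef_of_mem (hR : Good R) {z y u : ℕ →₀ F} (hN : Node R y) (hB : Bef y z)
    (hu : u ∈ Sp R y) : Bef u z := by
  intro i hi j hj
  obtain ⟨k, hk, hik⟩ := node_supp hR y hN u hu i hi
  exact lt_of_le_of_lt hik (hB k hk j hj)

/-- the minimal support point -/
theorem exists_min {z : ℕ →₀ F} (hz : z ≠ 0) : ∃ k, z k ≠ 0 ∧ ∀ i, i < k → z i = 0 := by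
  classical
  have : ∃ k, z k ≠ 0 := by
    by_contra h
    push Not at h
    exact hz (Finsupp.ext h)
  refine ⟨Nat.find this, Nat.find_spec this, ?_⟩
  intro i hi
  exact not_not.mp (Nat.find_min this hi)

/-- the maximal support point -/
theorem exists_max {z : ℕ →₀ F} (hz : z ≠ 0) : ∃ k, z k ≠ 0 ∧ ∀ i, k < i → z i = 0 := by
  have hne := Finsupp.support_nonempty_iff.mpr hz
  refine ⟨z.support.max' hne, Finsupp.mem_support_iff.mp (z.support.max'_mem hne), ?_⟩
  intro i hi
  by_contra h
  have := z.support.le_max' i (Finsupp.mem_support_iff.mpr h)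
  omega

/-- Dichotomy: at each position `n` the block subspace `Sp y` has a cut, or a basis vector `v`
straddles `n`. -/
theorem dich (hR : Good R) (n : ℕ) : ∀ y, Node R y →
    (∀ g ∈ Sp R y, tl n g ∈ Sp R y) ∨
    (∃ (v : ℕ →₀ F) (i0 j0 : ℕ), i0 < n ∧ n ≤ j0 ∧ v i0 ≠ 0 ∧ (∃ j ∈ y.support, j0 ≤ j) ∧
      ∀ g ∈ Sp R y, ∃ c : F, ∀ k, i0 ≤ k → k ≤ j0 → g k = c * v k) := by
  apply node_induction
  · left
    intro g hg
    rw [Sp_zero hR, Submodule.mem_bot] at hg ⊢
    subst hg
    ext i; simp [tl_apply]
  · intro z y hG hzy hN hB ih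
    obtain ⟨i0, hi0, hi0'⟩ := exists_min hG.ne_zero
    obtain ⟨j0, hj0, hj0'⟩ := exists_max hG.ne_zero
    have hij : i0 ≤ j0 := by
      by_contra h
      exact hi0 (hj0' i0 (by omega))
    rcases lt_or_ge j0 n with h1 | h1
    · left
      intro g hg
      have : tl n g = 0 := by
        ext i
        simp only [tl_apply]
        split_ifs with h2
        · by_contra h3
          obtain ⟨j, hj, hij'⟩ := node_supp hR z (Or.inr hG) g hg i
            (Finsupp.mem_support_iff.mpr h3)
          exact (Finsupp.mem_support_iff.mp hj) (hj0' j (by omega))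
        · rfl
      rw [this]; exact zero_mem _
    · rcases lt_or_ge i0 n with h2 | h2
      · right
        refine ⟨z, i0, j0, h2, h1, hi0, ⟨j0, Finsupp.mem_support_iff.mpr hj0, le_refl _⟩, ?_⟩
        intro g hg
        obtain ⟨c, u', hu', rfl⟩ := mem_Sp_step hR hzy hg
        refine ⟨c, ?_⟩
        intro k hk hk'
        have : u' k = 0 := by
          by_contra h3
          have := bef_of_mem hR hN hB hu' k (Finsupp.mem_support_iff.mpr h3) i0
            (Finsupp.mem_support_iff.mpr hi0)
          omega
        simp [this]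
      · rcases ih with h3 | ⟨v, i1, j1, hi1, hj1, hv, ⟨j, hj, hjj⟩, hv'⟩
        · left
          intro g hg
          obtain ⟨c, u', hu', rfl⟩ := mem_Sp_step hR hzy hg
          rw [tl_add, tl_smul]
          have : tl n z = z := by
            ext i
            simp only [tl_apply]
            split_ifs with h4
            · rfl
            · exact (hi0' i (by omega)).symm
          rw [this]
          exact add_mem (smul_mem _ _ (self_mem_Sp z)) (Sp_le_step hR hzy (h3 u' hu'))
        · right
          have hjz : j < i0 := hB j hj i0 (Finsupp.mem_support_iff.mpr hi0)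
          refine ⟨v, i1, j1, hi1, hj1, hv, ⟨i0, Finsupp.mem_support_iff.mpr hi0, by omega⟩, ?_⟩
          intro g hg
          obtain ⟨c, u', hu', rfl⟩ := mem_Sp_step hR hzy hg
          obtain ⟨c', hc'⟩ := hv' u' hu'
          refine ⟨c', ?_⟩
          intro k hk hk'
          have : z k = 0 := hi0' k (by omega)
          simp [this, hc' k hk hk']

/-- Separation: two elements of `Sp y` that agree on a nontrivial window before `a`, and have the
form `α a`, `β b`, `γ c` resp. `α' a`, `β' b`, `γ' c` afterwards. -/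
theorem sep (hR : Good R) {y : ℕ →₀ F} (hN : Node R y) {g g' a b c : ℕ →₀ F}
    (hg : g ∈ Sp R y) (hg' : g' ∈ Sp R y) {P A B C : ℕ} {α α' β β' γ γ' : F}
    (hPA : P < A) (hAB : A < B) (hBC : B < C)
    (hP : g P ≠ 0) (hPg : ∀ k, P ≤ k → k < A → g k = g' k)
    (ha : ∀ k, a k ≠ 0 → A ≤ k ∧ k < B) (haA : a A ≠ 0)
    (hb : ∀ k, b k ≠ 0 → B ≤ k ∧ k < C) (hbB : b B ≠ 0) (hcC : c C ≠ 0)
    (h1 : ∀ k, A ≤ k → k < B → g k = α * a k) (h1' : ∀ k, A ≤ k → k < B → g' k = α' * a k)
    (h2 : ∀ k, B ≤ k → k < C → g k = β * b k) (h2' : ∀ k, B ≤ k → k < C → g' k = β' * b k)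
    (h3 : g C = γ * c C) (h3' : g' C = γ' * c C)
    (hα : α ≠ 0) (hα' : α' ≠ 0) (hβ : β ≠ 0) (hβ' : β' ≠ 0) (hγ : γ ≠ 0) (hγ' : γ' ≠ 0)
    (hne1 : α ≠ α') (hne2 : β * α' ≠ β' * α) (hne3 : γ * β' ≠ γ' * β) :
    a ∈ Sp R y ∧ b ∈ Sp R y := by
  -- cut at A
  have cutA : ∀ u ∈ Sp R y, tl A u ∈ Sp R y := by
    rcases dich hR A y hN with h | ⟨v, i0, j0, hi0, hj0, hv, _, hv'⟩
    · exact h
    · exfalso
      obtain ⟨d, hd⟩ := hv' g hg
      obtain ⟨d', hd'⟩ := hv' g' hg'
      have gA : g A = d * v A := hd A (by omega) hj0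
      have gA' : g' A = d' * v A := hd' A (by omega) hj0
      have gA1 : g A = α * a A := h1 A (le_refl _) hAB
      have gA1' : g' A = α' * a A := h1' A (le_refl _) hAB
      have hdd : d = d' := by
        rcases le_or_gt P i0 with h4 | h4
        · have e1 := hd i0 (le_refl _) (by omega)
          have e2 := hd' i0 (le_refl _) (by omega)
          have e3 := hPg i0 h4 hi0
          rw [e1, e2] at e3
          exact mul_right_cancel₀ hv e3
        · have e1 := hd P (by omega) (by omega)
          have e2 := hd' P (by omega) (by omega)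
          have e3 := hPg P (le_refl _) hPA
          have e4 : v P ≠ 0 := by
            intro h5
            rw [h5, mul_zero] at e1
            exact hP e1
          rw [e1, e2] at e3
          exact mul_right_cancel₀ e4 e3
      apply hne1
      have : α * a A = α' * a A := by rw [← gA1, ← gA1', gA, gA', hdd]
      exact mul_right_cancel₀ haA this
  have cutB : ∀ u ∈ Sp R y, tl B u ∈ Sp R y := by
    rcases dich hR B y hN with h | ⟨v, i0, j0, hi0, hj0, hv, _, hv'⟩
    · exact h
    · exfalso
      -- the vector starts at or after A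
      obtain ⟨d, hd⟩ := hv' (tl A g) (cutA g hg)
      obtain ⟨d', hd'⟩ := hv' (tl A g') (cutA g' hg')
      have gB : g B = d * v B := by
        have := hd B (by omega) hj0
        rwa [tl_apply, if_pos (by omega)] at this
      have gB' : g' B = d' * v B := by
        have := hd' B (by omega) hj0
        rwa [tl_apply, if_pos (by omega)] at this
      have gB1 : g B = β * b B := h2 B (le_refl _) hBC
      have gB1' : g' B = β' * b B := h2' B (le_refl _) hBC
      have hd0 : d ≠ 0 := by
        rintro rfl
        rw [gB1, zero_mul] at gB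
        exact (mul_ne_zero hβ hbB) gB
      have hiA : A ≤ i0 := by
        by_contra h5
        have := hd i0 (le_refl _) (by omega)
        rw [tl_apply, if_neg (by omega)] at this
        exact (mul_ne_zero hd0 hv) this.symm
      have e1 : α * a i0 = d * v i0 := by
        have := hd i0 (le_refl _) (by omega)
        rw [tl_apply, if_pos hiA] at this
        rw [← this, h1 i0 hiA hi0]
      have e1' : α' * a i0 = d' * v i0 := by
        have := hd' i0 (le_refl _) (by omega)
        rw [tl_apply, if_pos hiA] at this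
        rw [← this, h1' i0 hiA hi0]
      have e2 : β * b B = d * v B := by rw [← gB, gB1]
      have e2' : β' * b B = d' * v B := by rw [← gB', gB1']
      have ha0 : a i0 ≠ 0 := by
        intro h6
        rw [h6, mul_zero] at e1
        exact (mul_ne_zero hd0 hv) e1.symm
      have e3 : α' * d = α * d' := by
        apply mul_right_cancel₀ hv
        apply mul_right_cancel₀ ha0
        linear_combination (-(α' * a i0)) * e1 + (α * a i0) * e1'
      apply hne2
      have hvB : v B ≠ 0 := by
        intro h6
        rw [h6, mul_zero] at e2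
        exact (mul_ne_zero hβ hbB) e2
      apply mul_right_cancel₀ hbB
      linear_combination α' * e2 - α * e2' + (v B) * e3
  have cutC : ∀ u ∈ Sp R y, tl C u ∈ Sp R y := by
    rcases dich hR C y hN with h | ⟨v, i0, j0, hi0, hj0, hv, _, hv'⟩
    · exact h
    · exfalso
      obtain ⟨d, hd⟩ := hv' (tl B g) (cutB g hg)
      obtain ⟨d', hd'⟩ := hv' (tl B g') (cutB g' hg')
      have gC : g C = d * v C := by
        have := hd C (by omega) hj0
        rwa [tl_apply, if_pos (by omega)] at this
      have gC' : g' C = d' * v C := by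
        have := hd' C (by omega) hj0
        rwa [tl_apply, if_pos (by omega)] at this
      have hd0 : d ≠ 0 := by
        rintro rfl
        rw [h3, zero_mul] at gC
        exact (mul_ne_zero hγ hcC) gC
      have hiB : B ≤ i0 := by
        by_contra h5
        have := hd i0 (le_refl _) (by omega)
        rw [tl_apply, if_neg (by omega)] at this
        exact (mul_ne_zero hd0 hv) this.symm
      have e1 : β * b i0 = d * v i0 := by
        have := hd i0 (le_refl _) (by omega)
        rw [tl_apply, if_pos hiB] at this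
        rw [← this, h2 i0 hiB hi0]
      have e1' : β' * b i0 = d' * v i0 := by
        have := hd' i0 (le_refl _) (by omega)
        rw [tl_apply, if_pos hiB] at this
        rw [← this, h2' i0 hiB hi0]
      have e2 : γ * c C = d * v C := by rw [← gC, h3]
      have e2' : γ' * c C = d' * v C := by rw [← gC', h3']
      have hb0 : b i0 ≠ 0 := by
        intro h6
        rw [h6, mul_zero] at e1
        exact (mul_ne_zero hd0 hv) e1.symm
      have e3 : β' * d = β * d' := by
        apply mul_right_cancel₀ hv
        apply mul_right_cancel₀ hb0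
        linear_combination (-(β' * b i0)) * e1 + (β * b i0) * e1'
      apply hne3
      apply mul_right_cancel₀ hcC
      linear_combination β' * e2 - β * e2' + (v C) * e3
  constructor
  · have h4 := sub_mem (cutA g hg) (cutB g hg)
    have h5 : tl A g - tl B g = α • a := by
      ext k
      simp only [Finsupp.sub_apply, tl_apply, Finsupp.smul_apply, smul_eq_mul]
      rcases lt_or_ge k A with h6 | h6
      · rw [if_neg (by omega), if_neg (by omega)]
        have : a k = 0 := by
          by_contra h7; have := (ha k h7).1; omega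
        rw [this]; ring
      · rw [if_pos h6]
        rcases lt_or_ge k B with h7 | h7
        · rw [if_neg (by omega), h1 k h6 h7]; ring
        · rw [if_pos h7]
          have : a k = 0 := by
            by_contra h8; have := (ha k h8).2; omega
          rw [this]; ring
    rw [h5] at h4
    have := smul_mem _ α⁻¹ h4
    rwa [smul_smul, inv_mul_cancel₀ hα, one_smul] at this
  · have h4 := sub_mem (cutB g hg) (cutC g hg)
    have h5 : tl B g - tl C g = β • b := by
      ext k
      simp only [Finsupp.sub_apply, tl_apply, Finsupp.smul_apply, smul_eq_mul]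
      rcases lt_or_ge k B with h6 | h6
      · rw [if_neg (by omega), if_neg (by omega)]
        have : b k = 0 := by
          by_contra h7; have := (hb k h7).1; omega
        rw [this]; ring
      · rw [if_pos h6]
        rcases lt_or_ge k C with h7 | h7
        · rw [if_neg (by omega), h2 k h6 h7]; ring
        · rw [if_pos h7]
          have : b k = 0 := by
            by_contra h8; have := (hb k h8).2; omega
          rw [this]; ring
    rw [h5] at h4
    have := smul_mem _ β⁻¹ h4
    rwa [smul_smul, inv_mul_cancel₀ hβ, one_smul] at this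

end Pool.Agent.MadBlock
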