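import Mathlib
import Pool.Agent.MadBlock.Struct

namespace Pool.Agent.MadBlock

open Submodule

variable {F : Type*} [Field F]

/-! ### finite-dimensionality and bounded supports -/

theorem finiteDimensional_iff_bounded (W : Submodule F (ℕ →₀ F)) :
    FiniteDimensional F W ↔ ∃ N, ∀ v ∈ W, ∀ i, N ≤ i → v i = 0 := by
  constructor
  · intro h
    obtain ⟨S, hS⟩ := (Submodule.fg_iff_finiteDimensional W).mpr h
    refine ⟨(S.sup (fun v => v.support.sup id)) + 1, ?_⟩
    intro v hv i hi
    rw [← hS] at hv
    have : (span F (S : Set (ℕ →₀ F))) ≤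
        Finsupp.supported F F {j | j < (S.sup (fun v => v.support.sup id)) + 1} := by
      rw [span_le]
      intro w hw
      simp only [SetLike.mem_coe]
      rw [Finsupp.mem_supported]
      intro j hj
      have h1 : j ≤ w.support.sup id := Finset.le_sup (f := id) hj
      have h2 : w.support.sup id ≤ S.sup (fun v => v.support.sup id) :=
        Finset.le_sup (f := fun v : ℕ →₀ F => v.support.sup id) hw
      simp only [Set.mem_ofPred_eq]
      omega
    have h2 := this hv
    rw [Finsupp.mem_supported] at h2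
    by_contra h3
    have := h2 (Finsupp.mem_support_iff.mpr h3)
    simp only [Set.mem_ofPred_eq] at this
    omega
  · rintro ⟨N, hN⟩
    have h1 : W ≤ Finsupp.supported F F {j : ℕ | j < N} := by
      intro v hv
      rw [Finsupp.mem_supported]
      intro j hj
      simp only [Set.mem_ofPred_eq]
      by_contra h
      exact (Finsupp.mem_support_iff.mp hj) (hN v hv j (by omega))
    have : Finite {j : ℕ | j < N} := Set.finite_lt_nat N
    have h2 : FiniteDimensional F (Finsupp.supported F F {j : ℕ | j < N}) :=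
      Module.Finite.equiv (Finsupp.supportedEquivFinsupp (M := F) (R := F) {j : ℕ | j < N}).symm
    exact Submodule.finiteDimensional_of_le h1

theorem almostDisjoint_iff (V W : Submodule F (ℕ →₀ F)) :
    AlmostDisjoint V W ↔ ∃ N, ∀ v ∈ V, v ∈ W → ∀ i, N ≤ i → v i = 0 := by
  unfold AlmostDisjoint
  rw [finiteDimensional_iff_bounded]
  constructor
  · rintro ⟨N, hN⟩
    exact ⟨N, fun v hv hw => hN v ⟨hv, hw⟩⟩
  · rintro ⟨N, hN⟩
    exact ⟨N, fun v hv => hN v hv.1 hv.2⟩

/-! ### block sequences -/

theorem Bef.trans' {x y z : ℕ →₀ F} (h1 : Bef x y) (h2 : Bef y z) (hy : y ≠ 0) : Bef x z := by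
  intro i hi j hj
  obtain ⟨k, hk⟩ := Finsupp.support_nonempty_iff.mpr hy
  exact lt_trans (h1 i hi k hk) (h2 k hk j hj)

theorem IsBlockSeq.bef {x : ℕ → (ℕ →₀ F)} (hx : IsBlockSeq x) {i j : ℕ} (h : i < j) :
    Bef (x i) (x j) := by
  induction j with
  | zero => omega
  | succ j ih =>
    rcases Nat.lt_succ_iff_lt_or_eq.mp h with h1 | h1
    · exact (ih h1).trans' (hx j).2 (hx j).1
    · subst h1; exact (hx i).2

theorem IsBlockSeq.ge {x : ℕ → (ℕ →₀ F)} (hx : IsBlockSeq x) :
    ∀ n, ∀ i ∈ (x n).support, n ≤ i := by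
  intro n
  induction n with
  | zero => intro i _; omega
  | succ n ih =>
    intro i hi
    obtain ⟨k, hk⟩ := Finsupp.support_nonempty_iff.mpr (hx n).1
    have := (hx n).2 k hk i hi
    have := ih k hk
    omega

/-- evaluation of a linear combination of a block sequence -/
theorem IsBlockSeq.eval {x : ℕ → (ℕ →₀ F)} (hx : IsBlockSeq x) {g : ℕ →₀ F}
    (hg : g ∈ span F (Set.range x)) : ∃ c : ℕ →₀ F, (g = c.sum fun i a => a • x i) ∧
      ∀ j, ∀ k ∈ (x j).support, g k = c j * x j k := by
  classical
  obtain ⟨c, hc⟩ := (Finsupp.mem_span_range_iff_exists_finsupp).mp hg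
  refine ⟨c, hc.symm, ?_⟩
  intro j k hk
  rw [← hc, Finsupp.sum, Finsupp.finsetSum_apply]
  have h1 : ∀ i ∈ c.support, i ≠ j → (c i • x i) k = 0 := by
    intro i _ hij
    have : x i k = 0 := by
      by_contra h
      rcases lt_or_gt_of_ne hij with h2 | h2
      · have := hx.bef h2 k (Finsupp.mem_support_iff.mpr h) k hk
        omega
      · have := hx.bef h2 k hk k (Finsupp.mem_support_iff.mpr h)
        omega
    simp [this]
  by_cases hj : j ∈ c.support
  · rw [Finset.sum_eq_single_of_mem j hj h1]
    simp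
  · rw [Finset.sum_eq_zero]
    · have : c j = 0 := by simpa using hj
      rw [this]; ring
    · intro i hi
      apply h1 i hi
      rintro rfl
      exact hj hi

theorem IsBlockSeq.mem_unbounded {x : ℕ → (ℕ →₀ F)} (hx : IsBlockSeq x)
    (W : Submodule F (ℕ →₀ F)) {n : ℕ} (h : ∀ i, x (n + i) ∈ W) (N : ℕ) :
    ∃ v ∈ W, ∃ i, N ≤ i ∧ v i ≠ 0 := by
  obtain ⟨k, hk⟩ := Finsupp.support_nonempty_iff.mpr (hx (n + N)).1
  refine ⟨x (n + N), h N, k, ?_, Finsupp.mem_support_iff.mp hk⟩
  have := hx.ge (n + N) k hk
  omega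

/-- Uniqueness of block bases. -/
theorem block_unique {x b : ℕ → (ℕ →₀ F)} (hx : IsBlockSeq x) (hb : IsBlockSeq b)
    (h : span F (Set.range x) = span F (Set.range b)) :
    ∀ n, ∃ c : F, c ≠ 0 ∧ x n = c • b n := by
  classical
  -- each `x n` is a multiple of some `b j`
  have key : ∀ (x b : ℕ → (ℕ →₀ F)), IsBlockSeq x → IsBlockSeq b →
      span F (Set.range x) = span F (Set.range b) →
      ∀ n, ∃ j, ∃ c : F, c ≠ 0 ∧ x n = c • b j := by
    intro x b hx hb h n
    have hxn : x n ∈ span F (Set.range b) := by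
      rw [← h]; exact subset_span ⟨n, rfl⟩
    obtain ⟨c, hc, hc'⟩ := hb.eval hxn
    have hne : c.support.Nonempty := by
      rw [Finset.nonempty_iff_ne_empty]
      intro h1
      apply (hx n).1
      rw [hc, Finsupp.sum, h1, Finset.sum_empty]
    obtain ⟨j, hj⟩ := hne
    have hcj : c j ≠ 0 := Finsupp.mem_support_iff.mp hj
    have hbj : b j ∈ span F (Set.range x) := by
      rw [h]; exact subset_span ⟨j, rfl⟩
    obtain ⟨d, hd, hd'⟩ := hx.eval hbj
    obtain ⟨k, hk⟩ := Finsupp.support_nonempty_iff.mpr (hb j).1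
    have hbk : b j k ≠ 0 := Finsupp.mem_support_iff.mp hk
    have hxk : x n k ≠ 0 := by
      rw [hc' j k hk]; exact mul_ne_zero hcj hbk
    have hdn : d n ≠ 0 := by
      intro h2
      have := hd' n k (Finsupp.mem_support_iff.mpr hxk)
      rw [h2, zero_mul] at this
      exact hbk this
    refine ⟨j, c j, hcj, ?_⟩
    ext i
    simp only [Finsupp.smul_apply, smul_eq_mul]
    by_cases hi : b j i = 0
    · rw [hi, mul_zero]
      by_contra h3
      have := hd' n i (Finsupp.mem_support_iff.mpr h3)
      rw [hi] at this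
      exact (mul_ne_zero hdn h3) this.symm
    · exact hc' j i (Finsupp.mem_support_iff.mpr hi)
  choose f c hc hf using key x b hx hb h
  choose f' c' hc' hf' using key b x hb hx h.symm
  have bef_inj : ∀ i j, Bef (b i) (b j) → i < j := by
    intro i j hij
    by_contra h1
    rcases Nat.eq_or_lt_of_not_lt h1 with h2 | h2
    · subst h2
      obtain ⟨k, hk⟩ := Finsupp.support_nonempty_iff.mpr (hb i).1
      have := hij k hk k hk
      omega
    · obtain ⟨k, hk⟩ := Finsupp.support_nonempty_iff.mpr (hb i).1
      obtain ⟨l, hl⟩ := Finsupp.support_nonempty_iff.mpr (hb j).1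
      have h3 := hij k hk l hl
      have h4 := hb.bef h2 l hl k hk
      omega
  have supp_eq : ∀ n, (x n).support = (b (f n)).support := by
    intro n
    rw [hf n]
    exact Finsupp.support_smul_eq (hc n)
  have mono : StrictMono f := by
    apply strictMono_nat_of_lt_succ
    intro n
    apply bef_inj
    intro i hi j hj
    rw [← supp_eq] at hi hj
    exact (hx n).2 i hi j hj
  have surj : Function.Surjective f := by
    intro j
    refine ⟨f' j, ?_⟩
    by_contra h1
    obtain ⟨k, hk⟩ := Finsupp.support_nonempty_iff.mpr (hb j).1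
    have h2 : k ∈ (b (f (f' j))).support := by
      rw [← supp_eq]
      have : (b j).support = (x (f' j)).support := by
        rw [hf' j]
        exact Finsupp.support_smul_eq (hc' j)
      rw [← this]; exact hk
    rcases lt_or_gt_of_ne h1 with h3 | h3
    · have := hb.bef h3 k h2 k hk
      omega
    · have := hb.bef h3 k hk k h2
      omega
  have fid : ∀ n, f n = n := by
    intro n
    induction n using Nat.strong_induction_on with
    | _ n ih =>
      obtain ⟨m, hm⟩ := surj n
      rcases lt_trichotomy m n with h1 | h1 | h1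
      · have := ih m h1
        omega
      · rw [h1] at hm; exact hm
      · have h2 := mono h1
        have h3 := mono.le_apply (x := n)
        omega
  intro n
  refine ⟨c n, hc n, ?_⟩
  have := hf n
  rw [fid n] at this
  exact this

end Pool.Agent.MadBlock
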