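import Mathlib
import Pool.Agent.MadBlock.Block

namespace Pool.Agent.MadBlock

open Submodule

variable {F : Type*} [Field F] {R : (ℕ →₀ F) → (ℕ →₀ F) → Prop}

/-- `z` is an ancestor of `y` (or equal to it) -/
def Anc (R : (ℕ →₀ F) → (ℕ →₀ F) → Prop) (z y : ℕ →₀ F) : Prop :=
  Relation.ReflTransGen (fun u v => R v u) z y

theorem Anc.mem {z y : ℕ →₀ F} (h : Anc R z y) : z ∈ Sp R y := subset_span h

theorem Anc.le {z y : ℕ →₀ F} (h : Anc R z y) : Sp R z ≤ Sp R y := by
  unfold Sp
  apply span_mono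
  intro u hu
  exact Relation.ReflTransGen.trans hu h

/-- top ancestor of a nonzero vector of `Sp y` -/
theorem top (hR : Good R) : ∀ y, Node R y → ∀ u ∈ Sp R y, u ≠ 0 →
    ∃ (z y' u' : ℕ →₀ F) (c : F), G R z ∧ R z y' ∧ Node R y' ∧ Bef y' z ∧ Anc R z y ∧
      u' ∈ Sp R y' ∧ c ≠ 0 ∧ u = c • z + u' := by
  apply node_induction
  · intro u hu hu0
    rw [Sp_zero hR, Submodule.mem_bot] at hu
    exact absurd hu hu0
  · intro z y hG hzy hN hB ih u hu hu0
    obtain ⟨c, u', hu', rfl⟩ := mem_Sp_step hR hzy hu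
    by_cases hc : c = 0
    · subst hc
      rw [zero_smul, zero_add] at hu0 ⊢
      obtain ⟨z', y', u'', c', h1, h2, h3, h4, h5, h6, h7, h8⟩ := ih u' hu' hu0
      exact ⟨z', y', u'', c', h1, h2, h3, h4, h5.tail hzy, h6, h7, h8⟩
    · exact ⟨z, y, u', c, hG, hzy, hN, hB, Relation.ReflTransGen.refl, hu', hc, rfl⟩

/-- uniqueness of the top ancestor, normalised form -/
theorem top_unique_aux (hR : Good R) {z z' y y' u u' : ℕ →₀ F} (hz : G R z) (hz' : G R z')
    (hy : R z y) (hy' : R z' y') (hu : u ∈ Sp R y) (hu' : u' ∈ Sp R y')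
    (h : z + u = z' + u') {κ κ' : ℕ} (hκ : z κ ≠ 0) (hκm : ∀ i, i < κ → z i = 0)
    (hκ' : z' κ' ≠ 0) (hκm' : ∀ i, i < κ' → z' i = 0) : ¬ κ < κ' := by
  intro hlt
  obtain ⟨y1, h1, h1', h1''⟩ := hz.parent
  obtain rfl := hR.func z y y1 hy h1
  obtain ⟨y2, h2, h2', h2''⟩ := hz'.parent
  obtain rfl := hR.func z' y' y2 hy' h2
  have hub : ∀ i, κ ≤ i → u i = 0 := by
    intro i hi
    by_contra h3
    have := bef_of_mem hR h1' h1'' hu i (Finsupp.mem_support_iff.mpr h3) κ
      (Finsupp.mem_support_iff.mpr hκ)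
    omega
  have hub' : ∀ i, κ' ≤ i → u' i = 0 := by
    intro i hi
    by_contra h3
    have := bef_of_mem hR h2' h2'' hu' i (Finsupp.mem_support_iff.mpr h3) κ'
      (Finsupp.mem_support_iff.mpr hκ')
    omega
  have hpt : ∀ i, z i + u i = z' i + u' i := by
    intro i
    have := DFunLike.congr_fun h i
    simpa using this
  have e1 : tl κ' z = z' := by
    ext i
    rw [tl_apply]
    split_ifs with h3
    · have := hpt i
      rw [hub i (by omega), hub' i h3, add_zero, add_zero] at this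
      exact this
    · exact (hκm' i (by omega)).symm
  have e2 : z κ' ≠ 0 := by
    have := DFunLike.congr_fun e1 κ'
    rw [tl_apply, if_pos (le_refl _)] at this
    rw [this]; exact hκ'
  have e3 : hd κ' z ≠ 0 := by
    intro h3
    have := DFunLike.congr_fun h3 κ
    rw [hd_apply, if_pos hlt] at this
    exact hκ this
  refine hz.noconf κ' e2 e3 (by rw [e1]; exact hz') y' (by rw [e1]; exact hy') ?_
  refine ⟨u', hu', κ, ?_⟩
  ext i
  rw [tl_apply, hd_apply]
  by_cases h3 : κ ≤ i
  · rw [if_pos h3]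
    by_cases h4 : i < κ'
    · rw [if_pos h4]
      have := hpt i
      rw [hub i h3, hκm' i h4, add_zero, zero_add] at this
      exact this.symm
    · rw [if_neg h4, hub' i (by omega)]
  · rw [if_neg h3]
    split_ifs
    · exact (hκm i (by omega)).symm
    · rfl

theorem top_unique (hR : Good R) {z z' y y' u u' : ℕ →₀ F} {c c' : F} (hz : G R z) (hz' : G R z')
    (hy : R z y) (hy' : R z' y') (hu : u ∈ Sp R y) (hu' : u' ∈ Sp R y') (hc : c ≠ 0) (hc' : c' ≠ 0)
    (h : c • z + u = c' • z' + u') : z = z' := by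
  obtain ⟨y1, h1, h1', h1''⟩ := hz.parent
  obtain rfl := hR.func z y y1 hy h1
  obtain ⟨y2, h2, h2', h2''⟩ := hz'.parent
  obtain rfl := hR.func z' y' y2 hy' h2
  obtain ⟨κ, hκ, hκm⟩ := exists_min hz.ne_zero
  obtain ⟨κ', hκ', hκm'⟩ := exists_min hz'.ne_zero
  obtain ⟨n, hn, hn'⟩ := hz.monic
  obtain ⟨m, hm, hm'⟩ := hz'.monic
  have hpt : ∀ i, c * z i + u i = c' * z' i + u' i := by
    intro i
    have := DFunLike.congr_fun h i
    simpa using this
  have hub : ∀ i, κ ≤ i → u i = 0 := by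
    intro i hi
    by_contra h3
    have := bef_of_mem hR h1' h1'' hu i (Finsupp.mem_support_iff.mpr h3) κ
      (Finsupp.mem_support_iff.mpr hκ)
    omega
  have hub' : ∀ i, κ' ≤ i → u' i = 0 := by
    intro i hi
    by_contra h3
    have := bef_of_mem hR h2' h2'' hu' i (Finsupp.mem_support_iff.mpr h3) κ'
      (Finsupp.mem_support_iff.mpr hκ')
    omega
  have hκn : κ ≤ n := by
    by_contra h3
    rw [hκm n (by omega)] at hn
    exact zero_ne_one hn
  have hκm2 : κ' ≤ m := by
    by_contra h3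
    rw [hκm' m (by omega)] at hm
    exact zero_ne_one hm
  have hnm : n = m := by
    rcases lt_trichotomy n m with h3 | h3 | h3
    · have := hpt m
      rw [hn' m h3, hub m (by omega), hub' m hκm2, hm] at this
      simp at this
      exact absurd this.symm hc'
    · exact h3
    · have := hpt n
      rw [hm' n h3, hub n hκn, hub' n (by omega), hn] at this
      simp at this
      exact absurd this hc
  have hcc : c = c' := by
    have := hpt n
    rw [hub n hκn, hub' n (by omega), hn, hnm, hm] at this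
    simpa using this
  subst hcc
  have h' : z + c⁻¹ • u = z' + c⁻¹ • u' := by
    have := congrArg (fun v => c⁻¹ • v) h
    simpa [smul_smul, inv_mul_cancel₀ hc] using this
  have n1 := top_unique_aux hR hz hz' hy hy' (smul_mem _ c⁻¹ hu) (smul_mem _ c⁻¹ hu') h'
    hκ hκm hκ' hκm'
  have n2 := top_unique_aux hR hz' hz hy' hy (smul_mem _ c⁻¹ hu') (smul_mem _ c⁻¹ hu) h'.symm
    hκ' hκm' hκ hκm
  have hkk : κ = κ' := by omega
  ext i
  rcases lt_or_ge i κ with h3 | h3
  · rw [hκm i h3, hκm' i (by omega)]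
  · have := hpt i
    rw [hub i h3, hub' i (by omega), add_zero, add_zero] at this
    exact mul_left_cancel₀ hc this

theorem anc_node (hR : Good R) : ∀ y, Node R y → ∀ z, Anc R z y → Node R z := by
  apply node_induction
  · intro z hz
    rcases Relation.ReflTransGen.cases_tail hz with h | ⟨v, _, h⟩
    · exact Or.inl h.symm
    · exact absurd h (hR.zero v)
  · intro z y hG hzy hN hB ih u hu
    rcases Relation.ReflTransGen.cases_tail hu with h | ⟨v, hv, h⟩
    · rw [← h]; exact Or.inr hG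
    · rw [← hR.func z y v hzy h] at hv
      exact ih u hv

theorem anc_total (hR : Good R) {y z z' : ℕ →₀ F} (h : Anc R z y) (h' : Anc R z' y) :
    Anc R z z' ∨ Anc R z' z := by
  -- induct along the chain ending in y
  unfold Anc at *
  induction h with
  | refl => exact Or.inr h'
  | tail hab hbc ih =>
    rename_i b c
    rcases Relation.ReflTransGen.cases_tail h' with h1 | ⟨v, hv, h1⟩
    · rw [← h1]
      exact Or.inl (hab.tail hbc)
    · have : b = v := hR.func _ _ _ hbc h1
      subst this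
      exact ih hv

/-! ### branches -/

structure IsBranch (R : (ℕ →₀ F) → (ℕ →₀ F) → Prop) (b : ℕ → (ℕ →₀ F)) : Prop where
  root : R (b 0) 0
  step : ∀ n, R (b (n + 1)) (b n)
  acc : ∀ n, G R (b n)

theorem IsBranch.blockSeq (hR : Good R) {b : ℕ → (ℕ →₀ F)} (hb : IsBranch R b) :
    IsBlockSeq b := by
  intro n
  refine ⟨(hb.acc n).ne_zero, ?_⟩
  obtain ⟨y, h1, _, h2⟩ := (hb.acc (n + 1)).parent
  rwa [hR.func _ _ _ (hb.step n) h1]

theorem IsBranch.anc {b : ℕ → (ℕ →₀ F)} (hb : IsBranch R b) {i n : ℕ} (h : i ≤ n) :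
    Anc R (b i) (b n) := by
  induction n with
  | zero =>
    have : i = 0 := by omega
    subst this; exact Relation.ReflTransGen.refl
  | succ n ih =>
    rcases Nat.eq_or_lt_of_le h with h1 | h1
    · subst h1; exact Relation.ReflTransGen.refl
    · exact (ih (by omega)).tail (hb.step n)

theorem IsBranch.of_anc (hR : Good R) {b : ℕ → (ℕ →₀ F)} (hb : IsBranch R b) {z : ℕ →₀ F}
    (hz : z ≠ 0) : ∀ n, Anc R z (b n) → ∃ i ≤ n, z = b i := by
  intro n
  induction n with
  | zero =>
    intro h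
    rcases Relation.ReflTransGen.cases_tail h with h1 | ⟨v, hv, h1⟩
    · exact ⟨0, le_refl _, h1.symm⟩
    · rw [← hR.func _ _ _ hb.root h1] at hv
      rcases Relation.ReflTransGen.cases_tail hv with h2 | ⟨v', _, h2⟩
      · exact absurd h2.symm hz
      · exact absurd h2 (hR.zero _)
  | succ n ih =>
    intro h
    rcases Relation.ReflTransGen.cases_tail h with h1 | ⟨v, hv, h1⟩
    · exact ⟨n + 1, le_refl _, h1.symm⟩
    · rw [← hR.func _ _ _ (hb.step n) h1] at hv
      obtain ⟨i, hi, hi'⟩ := ih hv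
      exact ⟨i, by omega, hi'⟩

/-- the block subspace of a branch -/
noncomputable def Br (b : ℕ → (ℕ →₀ F)) : Submodule F (ℕ →₀ F) := span F (Set.range b)

theorem IsBranch.mem_iff (hR : Good R) {b : ℕ → (ℕ →₀ F)} (hb : IsBranch R b) (w : ℕ →₀ F) :
    w ∈ Br b ↔ ∃ n, w ∈ Sp R (b n) := by
  constructor
  · intro hw
    have h1 : Br b ≤ ⨆ n, Sp R (b n) := by
      unfold Br
      rw [span_le]
      rintro _ ⟨n, rfl⟩
      exact (le_iSup (fun n => Sp R (b n)) n) (self_mem_Sp (b n))
    have hdir : Directed (· ≤ ·) (fun n => Sp R (b n)) := by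
      intro i j
      refine ⟨max i j, ?_, ?_⟩
      · exact (hb.anc (le_max_left i j)).le
      · exact (hb.anc (le_max_right i j)).le
    exact (Submodule.mem_iSup_of_directed _ hdir).mp (h1 hw)
  · rintro ⟨n, hn⟩
    have : Sp R (b n) ≤ Br b := by
      induction n with
      | zero =>
        rw [Sp_step hR hb.root, Sp_zero hR, sup_bot_eq, span_singleton_le_iff_mem]
        exact subset_span ⟨0, rfl⟩
      | succ n ih =>
        rw [Sp_step hR (hb.step n)]
        apply sup_le
        · rw [span_singleton_le_iff_mem]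
          exact subset_span ⟨n + 1, rfl⟩
        · by_cases h : w ∈ Sp R (b n)
          · exact ih h
          · -- need the inequality without membership
            clear ih hn
            have : ∀ m, Sp R (b m) ≤ Br b := by
              intro m
              induction m with
              | zero =>
                rw [Sp_step hR hb.root, Sp_zero hR, sup_bot_eq, span_singleton_le_iff_mem]
                exact subset_span ⟨0, rfl⟩
              | succ m ih =>
                rw [Sp_step hR (hb.step m)]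
                apply sup_le _ ih
                rw [span_singleton_le_iff_mem]
                exact subset_span ⟨m + 1, rfl⟩
            exact this n
    exact this hn

theorem branch_eq (hR : Good R) {b b' : ℕ → (ℕ →₀ F)} (hb : IsBranch R b) (hb' : IsBranch R b') :
    ∀ j j', b j = b' j' → j = j' ∧ ∀ i ≤ j, b i = b' i := by
  intro j
  induction j with
  | zero =>
    intro j' h
    cases j' with
    | zero => exact ⟨rfl, fun i hi => by obtain rfl : i = 0 := by omega
                                         exact h⟩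
    | succ j' =>
      exfalso
      have h1 := hb.root
      rw [h] at h1
      exact (hb'.acc j').ne_zero (hR.func _ _ _ (hb'.step j') h1)
  | succ j ih =>
    intro j' h
    cases j' with
    | zero =>
      exfalso
      have h1 := hb'.root
      rw [← h] at h1
      exact (hb.acc j).ne_zero (hR.func _ _ _ (hb.step j) h1)
    | succ j' =>
      have h1 := hb'.step j'
      rw [← h] at h1
      have h2 := hR.func _ _ _ (hb.step j) h1
      obtain ⟨h3, h4⟩ := ih j' h2
      refine ⟨by omega, ?_⟩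
      intro i hi
      rcases Nat.eq_or_lt_of_le hi with h5 | h5
      · rw [h5, h, h3]
      · exact h4 i (by omega)

theorem common (hR : Good R) {b b' : ℕ → (ℕ →₀ F)} (hb : IsBranch R b) (hb' : IsBranch R b')
    {w : ℕ →₀ F} (hw : w ∈ Br b) (hw' : w ∈ Br b') (h0 : w ≠ 0) :
    ∃ j, (∀ i ≤ j, b i = b' i) ∧ w ∈ Sp R (b j) := by
  obtain ⟨n, hn⟩ := (hb.mem_iff hR w).mp hw
  obtain ⟨n', hn'⟩ := (hb'.mem_iff hR w).mp hw'
  obtain ⟨z, y, u, c, h1, h2, h3, h4, h5, h6, h7, h8⟩ := top hR (b n) (Or.inr (hb.acc n)) w hn h0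
  obtain ⟨z', y', u', c', h1', h2', h3', h4', h5', h6', h7', h8'⟩ :=
    top hR (b' n') (Or.inr (hb'.acc n')) w hn' h0
  have hzz : z = z' := top_unique hR h1 h1' h2 h2' h6 h6' h7 h7' (by rw [← h8, ← h8'])
  obtain ⟨i, hi, hi'⟩ := hb.of_anc hR h1.ne_zero n h5
  obtain ⟨i', hj, hj'⟩ := hb'.of_anc hR h1'.ne_zero n' h5'
  obtain ⟨_, h9⟩ := branch_eq hR hb hb' i i' (by rw [← hi', ← hj', hzz])
  refine ⟨i, h9, ?_⟩
  rw [← hi', h8]
  exact add_mem (smul_mem _ _ (self_mem_Sp z)) (Sp_le_step hR h2 h6)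

theorem Sp_bounded (hR : Good R) {y : ℕ →₀ F} (hy : Node R y) :
    ∃ N, ∀ v ∈ Sp R y, ∀ i, N ≤ i → v i = 0 := by
  refine ⟨y.support.sup id + 1, ?_⟩
  intro v hv i hi
  by_contra h
  obtain ⟨j, hj, hij⟩ := node_supp hR y hy v hv i (Finsupp.mem_support_iff.mpr h)
  have : j ≤ y.support.sup id := Finset.le_sup (f := id) hj
  omega

theorem branch_ad (hR : Good R) {b b' : ℕ → (ℕ →₀ F)} (hb : IsBranch R b) (hb' : IsBranch R b')
    (h : b ≠ b') : AlmostDisjoint (Br b) (Br b') := by
  rw [almostDisjoint_iff]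
  obtain ⟨k, hk⟩ : ∃ k, b k ≠ b' k := by
    by_contra h1
    push Not at h1
    exact h (funext h1)
  obtain ⟨N, hN⟩ := Sp_bounded hR (Or.inr (hb.acc k))
  refine ⟨N, ?_⟩
  intro v hv hv' i hi
  by_cases h0 : v = 0
  · rw [h0]; rfl
  · obtain ⟨j, hj, hj'⟩ := common hR hb hb' hv hv' h0
    have hjk : j < k := by
      by_contra h2
      exact hk (hj k (by omega))
    exact hN v ((hb.anc (le_of_lt hjk)).le hj') i hi

theorem branch_not_ad_self (hR : Good R) {b : ℕ → (ℕ →₀ F)} (hb : IsBranch R b)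
    {V : Submodule F (ℕ →₀ F)} (h : ∀ n, b n ∈ V) : ¬ AlmostDisjoint V (Br b) := by
  rw [almostDisjoint_iff]
  rintro ⟨N, hN⟩
  obtain ⟨k, hk⟩ := Finsupp.support_nonempty_iff.mpr (hb.acc N).ne_zero
  have h1 := (hb.blockSeq hR).ge N k hk
  exact (Finsupp.mem_support_iff.mp hk) (hN (b N) (h N) (subset_span ⟨N, rfl⟩) k h1)

/-! ### rich subspaces -/

def Rich (R : (ℕ →₀ F) → (ℕ →₀ F) → Prop) (V : Submodule F (ℕ →₀ F)) : Prop :=
  ∀ n, ∃ a ∈ V, ∃ b ∈ V, a ≠ 0 ∧ b ≠ 0 ∧ (∀ i ∈ a.support, n ≤ i) ∧ Bef a b ∧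
    ∀ y, Node R y → ¬ (a ∈ Sp R y ∧ b ∈ Sp R y)

theorem exists_root (hR : Good R) : ∀ y, Node R y → y ≠ 0 → ∃ z, G R z ∧ R z 0 ∧ Anc R z y := by
  apply node_induction
  · intro h; exact absurd rfl h
  · intro z y hG hzy hN hB ih _
    by_cases hy : y = 0
    · subst hy
      exact ⟨z, hG, hzy, Relation.ReflTransGen.refl⟩
    · obtain ⟨z', h1, h2, h3⟩ := ih hy
      exact ⟨z', h1, h2, h3.tail hzy⟩

theorem rich_of_ad (hR : Good R) {x : ℕ → (ℕ →₀ F)} (hx : IsBlockSeq x)
    (hV : ∀ b, IsBranch R b → AlmostDisjoint (span F (Set.range x)) (Br b)) :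
    Rich R (span F (Set.range x)) := by
  classical
  intro n
  by_contra hcon
  push Not at hcon
  -- any two of the vectors v i = x (n+i) lie in a common node
  have hpair : ∀ i j, i < j → ∃ y, Node R y ∧ x (n + i) ∈ Sp R y ∧ x (n + j) ∈ Sp R y := by
    intro i j hij
    exact hcon (x (n + i)) (subset_span ⟨_, rfl⟩) (x (n + j)) (subset_span ⟨_, rfl⟩)
      (hx _).1 (hx _).1 (fun k hk => by have := hx.ge _ k hk; omega) (hx.bef (by omega))
  -- top ancestors
  have htop : ∀ i, ∃ t, G R t ∧ x (n + i) ∈ Sp R t ∧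
      (∀ y, Node R y → x (n + i) ∈ Sp R y → Anc R t y) ∧
      (∀ k, (∀ j, k < j → x (n + i) j = 0) → ∀ j, k < j → t j = 0) ∧
      (∀ k, (∀ j, k < j → t j = 0) → ∀ j, k < j → x (n + i) j = 0) := by
    intro i
    obtain ⟨y, hy, hy1, _⟩ := hpair i (i + 1) (by omega)
    obtain ⟨z, y', u, c, h1, h2, h3, h4, h5, h6, h7, h8⟩ := top hR y hy _ hy1 (hx _).1
    refine ⟨z, h1, ?_, ?_, ?_, ?_⟩
    · rw [h8]
      exact add_mem (smul_mem _ _ (self_mem_Sp z)) (Sp_le_step hR h2 h6)
    · intro y1 hy1 hy1'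
      obtain ⟨z', y'', u', c', h1', h2', h3', h4', h5', h6', h7', h8'⟩ :=
        top hR y1 hy1 _ hy1' (hx _).1
      have : z = z' := top_unique hR h1 h1' h2 h2' h6 h6' h7 h7' (by rw [← h8, ← h8'])
      rw [this]; exact h5'
    · intro k hk j hj
      by_contra h9
      obtain ⟨m, hm, hm'⟩ := exists_max h1.ne_zero
      have hjm : j ≤ m := by
        by_contra h10
        exact h9 (hm' j (by omega))
      have h11 := hk m (by omega)
      rw [h8] at h11
      have hum : u m = 0 := by
        by_contra h12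
        have := bef_of_mem hR h3 h4 h6 m (Finsupp.mem_support_iff.mpr h12) m
          (Finsupp.mem_support_iff.mpr hm)
        omega
      simp only [Finsupp.add_apply, Finsupp.smul_apply, smul_eq_mul, hum, add_zero] at h11
      exact (mul_ne_zero h7 hm) h11
    · intro k hk j hj
      rw [h8]
      have hzj := hk j hj
      have huj : u j = 0 := by
        by_contra h12
        obtain ⟨m, hm, hm'⟩ := exists_max h1.ne_zero
        have := bef_of_mem hR h3 h4 h6 j (Finsupp.mem_support_iff.mpr h12) m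
          (Finsupp.mem_support_iff.mpr hm)
        exact hm (hk m (by omega))
      simp [hzj, huj]
  choose t ht1 ht2 ht3 ht4 ht5 using htop
  -- t i is an ancestor of t j for i < j, and different
  have htlt : ∀ i j, i < j → Anc R (t i) (t j) ∧ t i ≠ t j := by
    intro i j hij
    obtain ⟨mi, hmi, hmi'⟩ := exists_max (hx (n + i)).1
    obtain ⟨mj, hmj, hmj'⟩ := exists_max (hx (n + j)).1
    have hmm : mi < mj := hx.bef (by omega : n + i < n + j) mi (Finsupp.mem_support_iff.mpr hmi) mj
      (Finsupp.mem_support_iff.mpr hmj)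
    have hti : ∀ k, mi < k → t i k = 0 := ht4 i mi hmi'
    have htj : ∃ k, mi < k ∧ t j k ≠ 0 := by
      by_contra h
      push Not at h
      exact hmj (ht5 j mi h mj hmm)
    obtain ⟨k, hk, hk'⟩ := htj
    obtain ⟨y, hy, hy1, hy2⟩ := hpair i j hij
    have a1 := ht3 i y hy hy1
    have a2 := ht3 j y hy hy2
    have hne : t i ≠ t j := by
      intro h
      rw [← h] at hk'
      exact hk' (hti k hk)
    refine ⟨?_, hne⟩
    rcases anc_total hR a1 a2 with h | h
    · exact h
    · exfalso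
      have h1 := h.mem
      obtain ⟨l, hl, hkl⟩ := node_supp hR (t i) (Or.inr (ht1 i)) (t j) h1 k
        (Finsupp.mem_support_iff.mpr hk')
      exact (Finsupp.mem_support_iff.mp hl) (hti l (by omega))
  -- the set of ancestors of the t i
  let L : (ℕ →₀ F) → Prop := fun z => G R z ∧ ∃ i, Anc R z (t i)
  have hnext : ∀ z, L z → ∃ z', L z' ∧ R z' z := by
    rintro z ⟨hz, i, hi⟩
    obtain ⟨h1, h2⟩ := htlt i (i + 1) (by omega)
    have h3 : Anc R z (t (i + 1)) := Relation.ReflTransGen.trans hi h1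
    rcases Relation.ReflTransGen.cases_head h3 with h4 | ⟨z', h4, h5⟩
    · -- z = t (i+1) is an ancestor of t i : impossible
      exfalso
      rw [h4] at hi
      rcases Relation.ReflTransGen.cases_tail hi with h6 | ⟨v, _, _⟩
      · exact h2 h6
      · obtain ⟨mi, hmi, hmi'⟩ := exists_max (ht1 i).ne_zero
        obtain ⟨mj, hmj, hmj'⟩ := exists_max (ht1 (i + 1)).ne_zero
        obtain ⟨xi, hxi, hxi'⟩ := exists_max (hx (n + i)).1
        obtain ⟨xj, hxj, hxj'⟩ := exists_max (hx (n + (i + 1))).1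
        have hmm : xi < xj := hx.bef (by omega : n + i < n + (i + 1)) xi
          (Finsupp.mem_support_iff.mpr hxi) xj (Finsupp.mem_support_iff.mpr hxj)
        have hti : ∀ k, xi < k → t i k = 0 := ht4 i xi hxi'
        have htj : ∃ k, xi < k ∧ t (i + 1) k ≠ 0 := by
          by_contra h
          push Not at h
          exact hxj (ht5 (i + 1) xi h xj hmm)
        obtain ⟨k, hk, hk'⟩ := htj
        obtain ⟨l, hl, hkl⟩ := node_supp hR (t i) (Or.inr (ht1 i)) (t (i + 1)) (Anc.mem hi) k
          (Finsupp.mem_support_iff.mpr hk')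
        exact (Finsupp.mem_support_iff.mp hl) (hti l (by omega))
    · refine ⟨z', ⟨?_, i + 1, h5⟩, h4⟩
      rcases anc_node hR (t (i + 1)) (Or.inr (ht1 _)) z' h5 with h6 | h6
      · rw [h6] at h4
        exact absurd h4 (hR.zero _)
      · exact h6
  obtain ⟨z0, hz0, hz0', hz0''⟩ := exists_root hR (t 0) (Or.inr (ht1 0)) (ht1 0).ne_zero
  choose! nx hnx1 hnx2 using hnext
  let b : ℕ → (ℕ →₀ F) := fun m => Nat.rec z0 (fun _ z => nx z) m
  have hbL : ∀ m, L (b m) := by
    intro m
    induction m with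
    | zero => exact ⟨hz0, 0, hz0''⟩
    | succ m ih => exact hnx1 _ ih
  have hb : IsBranch R b :=
    { root := hz0'
      step := fun m => hnx2 _ (hbL m)
      acc := fun m => (hbL m).1 }
  have hmem : ∀ i, x (n + i) ∈ Br b := by
    intro i
    -- compare t i with b m for large m
    obtain ⟨m0, hm0, hm0'⟩ := exists_max (ht1 i).ne_zero
    obtain ⟨hbg, j, hj⟩ := hbL (m0 + 1)
    have h1 : Anc R (t i) (t (max i j)) ∧ Anc R (b (m0 + 1)) (t (max i j)) := by
      constructor
      · rcases Nat.eq_or_lt_of_le (le_max_left i j) with h | h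
        · rw [← h]; exact Relation.ReflTransGen.refl
        · exact (htlt _ _ h).1
      · rcases Nat.eq_or_lt_of_le (le_max_right i j) with h | h
        · rw [← h]; exact hj
        · exact Relation.ReflTransGen.trans hj (htlt _ _ h).1
    rcases anc_total hR h1.1 h1.2 with h | h
    · obtain ⟨l, hl, hl'⟩ := hb.of_anc hR (ht1 i).ne_zero (m0 + 1) h
      rw [hb.mem_iff hR]
      exact ⟨l, by rw [← hl']; exact ht2 i⟩
    · exfalso
      obtain ⟨k, hk⟩ := Finsupp.support_nonempty_iff.mpr (hb.acc (m0 + 1)).ne_zero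
      have h2 := (hb.blockSeq hR).ge (m0 + 1) k hk
      obtain ⟨l, hl, hkl⟩ := node_supp hR (t i) (Or.inr (ht1 i)) _ (Anc.mem h) k hk
      exact (Finsupp.mem_support_iff.mp hl) (hm0' l (by omega))
  have hAD := hV b hb
  rw [almostDisjoint_iff] at hAD
  obtain ⟨N, hN⟩ := hAD
  obtain ⟨v, hv, i, hi, hvi⟩ := hx.mem_unbounded (span F (Set.range x) ⊓ Br b) (n := n)
    (fun i => ⟨subset_span ⟨_, rfl⟩, hmem i⟩) N
  exact hvi (hN v hv.1 hv.2 i hi)

end Pool.Agent.MadBlock
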