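import Mathlib
import Pool.Agent.MadBlock.Family

namespace Pool.Agent.MadBlock

open Submodule

variable {F : Type*} [Field F] {R : (ℕ →₀ F) → (ℕ →₀ F) → Prop}

/-- the family of all block subspaces given by branches -/
def Fam (R : (ℕ →₀ F) → (ℕ →₀ F) → Prop) : Set (Submodule F (ℕ →₀ F)) :=
  {V | ∃ b, IsBranch R b ∧ V = Br b}

/-- vectors supported on `[n, ∞)` -/
noncomputable def Vge (F : Type*) [Field F] (n : ℕ) : Submodule F (ℕ →₀ F) :=
  Finsupp.supported F F {i : ℕ | n ≤ i}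

theorem mem_Vge {n : ℕ} {v : ℕ →₀ F} : v ∈ Vge F n ↔ ∀ i, i < n → v i = 0 := by
  unfold Vge
  rw [Finsupp.mem_supported]
  constructor
  · intro h i hi
    by_contra h1
    have := h (Finsupp.mem_support_iff.mpr h1)
    simp only [Set.mem_ofPred_eq] at this
    omega
  · intro h i hi
    simp only [Set.mem_ofPred_eq]
    by_contra h1
    exact (Finsupp.mem_support_iff.mp hi) (h i (by omega))

theorem single_not_mem (hR : Good R) (hs : ∀ n y, ¬ R (Finsupp.single n 1) y) {y : ℕ →₀ F}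
    (hy : Node R y) (k : ℕ) : Finsupp.single k (1 : F) ∉ Sp R y := by
  intro h
  have h0 : Finsupp.single k (1 : F) ≠ 0 := by
    intro h1
    have := DFunLike.congr_fun h1 k
    simp at this
  obtain ⟨z, y', u, c, h1, h2, h3, h4, h5, h6, h7, h8⟩ := top hR y hy _ h h0
  have hz : ∀ i, z i ≠ 0 → i = k := by
    intro i hi
    by_contra hik
    have hu : u i = 0 := by
      by_contra h9
      have := bef_of_mem hR h3 h4 h6 i (Finsupp.mem_support_iff.mpr h9) i
        (Finsupp.mem_support_iff.mpr hi)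
      omega
    have := DFunLike.congr_fun h8 i
    rw [Finsupp.single_apply, if_neg (Ne.symm hik)] at this
    simp only [Finsupp.add_apply, Finsupp.smul_apply, smul_eq_mul, hu, add_zero] at this
    exact (mul_ne_zero h7 hi) this.symm
  have hzk : z = Finsupp.single k 1 := by
    obtain ⟨n, hn, hn'⟩ := h1.monic
    have : n = k := hz n (by rw [hn]; exact one_ne_zero)
    subst this
    ext i
    rw [Finsupp.single_apply]
    split_ifs with h9
    · rw [← h9]; exact hn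
    · by_contra h10
      exact h9 (hz i h10).symm
  rw [hzk] at h2
  exact hs k y' h2

theorem rich_Vge (hR : Good R) (hs : ∀ n y, ¬ R (Finsupp.single n 1) y) (n : ℕ) :
    Rich R (Vge F n) := by
  intro m
  have hne : ∀ k : ℕ, Finsupp.single k (1 : F) ≠ 0 := by
    intro k h1
    have := DFunLike.congr_fun h1 k
    simp at this
  refine ⟨Finsupp.single (max n m) 1, ?_, Finsupp.single (max n m + 1) 1, ?_, hne _, hne _, ?_, ?_,
    ?_⟩
  · rw [mem_Vge]
    intro i hi
    rw [Finsupp.single_apply, if_neg]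
    omega
  · rw [mem_Vge]
    intro i hi
    rw [Finsupp.single_apply, if_neg]
    omega
  · intro i hi
    rw [Finsupp.mem_support_iff, Finsupp.single_apply] at hi
    by_contra h
    apply hi
    rw [if_neg]
    omega
  · intro i hi j hj
    rw [Finsupp.mem_support_iff, Finsupp.single_apply] at hi hj
    have h1 : max n m = i := by
      by_contra h
      exact hi (if_neg h)
    have h2 : max n m + 1 = j := by
      by_contra h
      exact hj (if_neg h)
    omega
  · rintro y hy ⟨h1, _⟩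
    exact single_not_mem hR hs hy _ h1

/-- building a branch inside a rich subspace from a given start -/
theorem build {V : Submodule F (ℕ →₀ F)}
    (hit : ∀ s, Node R s → ∃ w ∈ V, G R w ∧ R w s) {w0 : ℕ →₀ F} (hw0 : G R w0)
    (hw0' : R w0 0) : ∃ b, IsBranch R b ∧ b 0 = w0 ∧ ∀ n, b (n + 1) ∈ V := by
  have h1 : ∀ s, G R s → ∃ w, w ∈ V ∧ G R w ∧ R w s := fun s hs => by
    obtain ⟨w, h1, h2, h3⟩ := hit s (Or.inr hs)
    exact ⟨w, h1, h2, h3⟩
  choose! nx h2 h3 h4 using h1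
  let b : ℕ → (ℕ →₀ F) := fun m => Nat.rec w0 (fun _ z => nx z) m
  have hG : ∀ m, G R (b m) := by
    intro m
    induction m with
    | zero => exact hw0
    | succ m ih => exact h3 _ ih
  exact ⟨b, ⟨hw0', fun m => h4 _ (hG m), hG⟩, rfl, fun n => h2 _ (hG n)⟩

theorem mad_of_hit (hR : Good R)
    (hit : ∀ V : Submodule F (ℕ →₀ F), Rich R V → ∀ s, Node R s → ∃ w ∈ V, G R w ∧ R w s) :
    IsMadFamily (Fam R) := by
  refine ⟨?_, ?_, ?_⟩
  · rintro V ⟨b, hb, rfl⟩
    exact ⟨b, hb.blockSeq hR, rfl⟩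
  · rintro V ⟨b, hb, rfl⟩ W ⟨b', hb', rfl⟩ hne
    apply branch_ad hR hb hb'
    rintro rfl
    exact hne rfl
  · rintro V ⟨x, hx, rfl⟩
    by_contra hcon
    push Not at hcon
    have hAD : ∀ b, IsBranch R b → AlmostDisjoint (span F (Set.range x)) (Br b) :=
      fun b hb => hcon (Br b) ⟨b, hb, rfl⟩
    have hrich := rich_of_ad hR hx hAD
    obtain ⟨w0, hw0, hw0', hw0''⟩ := hit _ hrich 0 (Or.inl rfl)
    obtain ⟨b, hb, hb0, hbV⟩ := build (hit _ hrich) hw0' hw0''
    refine branch_not_ad_self hR hb ?_ (hAD b hb)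
    intro n
    cases n with
    | zero => rw [hb0]; exact hw0
    | succ n => exact hbV n

theorem infinite_of_hit (hR : Good R) (hs : ∀ n y, ¬ R (Finsupp.single n (1 : F)) y)
    (hit : ∀ V : Submodule F (ℕ →₀ F), Rich R V → ∀ s, Node R s → ∃ w ∈ V, G R w ∧ R w s) :
    (Fam R).Infinite := by
  have h1 : ∀ n, ∃ b, IsBranch R b ∧ b 0 ∈ Vge F n := by
    intro n
    obtain ⟨w0, hw0, hw0', hw0''⟩ := hit _ (rich_Vge hR hs n) 0 (Or.inl rfl)
    obtain ⟨b, hb, hb0, _⟩ := build (hit _ (rich_Vge hR hs 0)) hw0' hw0''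
    exact ⟨b, hb, by rw [hb0]; exact hw0⟩
  choose b hb hb0 using h1
  have h2 : ∀ m, ∃ N, ∀ n, N ≤ n → Br (b n) ≠ Br (b m) := by
    intro m
    obtain ⟨i, hi⟩ := Finsupp.support_nonempty_iff.mpr ((hb m).acc 0).ne_zero
    refine ⟨i + 1, ?_⟩
    intro n hn heq
    have hbb : b n = b m := by
      by_contra hne
      have h3 := branch_ad hR (hb n) (hb m) hne
      rw [heq] at h3
      have h5 : ∀ k, b m k ∈ Br (b m) := fun k => subset_span ⟨k, rfl⟩
      exact branch_not_ad_self hR (hb m) h5 h3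
    have h4 := mem_Vge.mp (hb0 n) i (by omega)
    rw [hbb] at h4
    exact (Finsupp.mem_support_iff.mp hi) h4
  intro hfin
  have h3 : (Set.range fun n => Br (b n)).Finite := by
    apply hfin.subset
    rintro _ ⟨n, rfl⟩
    exact ⟨b n, hb n, rfl⟩
  haveI : Finite (Set.range fun n => Br (b n)) := h3
  obtain ⟨⟨A, hA⟩, hA'⟩ := Finite.exists_infinite_fiber
    (fun n : ℕ => (⟨Br (b n), ⟨n, rfl⟩⟩ : Set.range fun n => Br (b n)))
  obtain ⟨m, rfl⟩ := hA
  obtain ⟨N, hN⟩ := h2 m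
  rw [Set.infinite_coe_iff] at hA'
  obtain ⟨n, hn, hn'⟩ := hA'.exists_gt N
  simp only [Set.mem_preimage, Set.mem_singleton_iff] at hn
  exact hN n (le_of_lt hn') (congrArg Subtype.val hn)

theorem monic_smul_unique {v : ℕ →₀ F} {c d : F} (hc : Monic (c • v)) (hd : Monic (d • v)) :
    c = d := by
  obtain ⟨n, hn, hn'⟩ := hc
  obtain ⟨m, hm, hm'⟩ := hd
  simp only [Finsupp.smul_apply, smul_eq_mul] at hn hn' hm hm'
  have hc0 : c ≠ 0 := by rintro rfl; simp at hn
  have hd0 : d ≠ 0 := by rintro rfl; simp at hm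
  have hvn : v n ≠ 0 := by intro h; rw [h] at hn; simp at hn
  have hvm : v m ≠ 0 := by intro h; rw [h] at hm; simp at hm
  have : n = m := by
    rcases lt_trichotomy n m with h | h | h
    · exact absurd (hn' m h) (mul_ne_zero hc0 hvm)
    · exact h
    · exact absurd (hm' n h) (mul_ne_zero hd0 hvn)
  subst this
  exact mul_right_cancel₀ hvn (by rw [hn, hm])

theorem codes_eq (hR : Good R) : Codes (Fam R) =
    {x | ∀ n, (x n ≠ 0 ∧ Bef (x n) (x (n + 1))) ∧
      (∃ c d : F, c ≠ 0 ∧ d ≠ 0 ∧ G R (c • x n) ∧ G R (d • x (n + 1)) ∧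
        R (d • x (n + 1)) (c • x n)) ∧ (∃ c : F, c ≠ 0 ∧ G R (c • x 0) ∧ R (c • x 0) 0)} := by
  ext x
  constructor
  · rintro ⟨hx, b, hb, hspan⟩
    have h1 := block_unique hx (hb.blockSeq hR) hspan
    choose c hc hc' using h1
    have h2 : ∀ n, (c n)⁻¹ • x n = b n := by
      intro n
      rw [hc' n, smul_smul, inv_mul_cancel₀ (hc n), one_smul]
    intro n
    refine ⟨hx n, ⟨(c n)⁻¹, (c (n + 1))⁻¹, inv_ne_zero (hc _), inv_ne_zero (hc _), ?_, ?_, ?_⟩,
      ⟨(c 0)⁻¹, inv_ne_zero (hc _), ?_, ?_⟩⟩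
    · rw [h2]; exact hb.acc _
    · rw [h2]; exact hb.acc _
    · rw [h2, h2]; exact hb.step _
    · rw [h2]; exact hb.acc _
    · rw [h2]; exact hb.root
  · intro hx
    have hbs : IsBlockSeq x := fun n => (hx n).1
    refine ⟨hbs, ?_⟩
    have h1 : ∀ n, ∃ c : F, c ≠ 0 ∧ G R (c • x n) := by
      intro n
      obtain ⟨_, ⟨c, d, hc, _, h2, _, _⟩, _⟩ := hx n
      exact ⟨c, hc, h2⟩
    choose c hc hc' using h1
    refine ⟨fun n => c n • x n, ⟨?_, ?_, hc'⟩, ?_⟩
    · obtain ⟨_, _, ⟨d, hd, h2, h3⟩⟩ := hx 0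
      rwa [monic_smul_unique h2.monic (hc' 0).monic] at h3
    · intro n
      obtain ⟨_, ⟨d, e, hd, he, h2, h3, h4⟩, _⟩ := hx n
      rwa [monic_smul_unique h2.monic (hc' n).monic,
        monic_smul_unique h3.monic (hc' (n + 1)).monic] at h4
    · show span F (Set.range x) = span F (Set.range fun n => c n • x n)
      apply le_antisymm
      · rw [span_le]
        rintro _ ⟨n, rfl⟩
        have h2 : c n • x n ∈ span F (Set.range fun n => c n • x n) := subset_span ⟨n, rfl⟩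
        have h3 := smul_mem _ (c n)⁻¹ h2
        rwa [smul_smul, inv_mul_cancel₀ (hc n), one_smul] at h3
      · rw [span_le]
        rintro _ ⟨n, rfl⟩
        exact smul_mem _ _ (subset_span ⟨n, rfl⟩)

theorem closed_codes (hR : Good R) : ClosedInProduct (Codes (Fam R)) := by
  unfold ClosedInProduct
  rw [codes_eq hR]
  letI : TopologicalSpace (ℕ →₀ F) := ⊥
  haveI : DiscreteTopology (ℕ →₀ F) := ⟨rfl⟩
  show IsClosed _
  have h1 : ∀ (P : (ℕ →₀ F) → (ℕ →₀ F) → (ℕ →₀ F) → Prop) (n : ℕ),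
      IsClosed {x : ℕ → (ℕ →₀ F) | P (x n) (x (n + 1)) (x 0)} := by
    intro P n
    have h2 : Continuous (fun x : ℕ → (ℕ →₀ F) => (x n, x (n + 1), x 0)) := by
      fun_prop
    exact (isClosed_discrete {p : (ℕ →₀ F) × (ℕ →₀ F) × (ℕ →₀ F) | P p.1 p.2.1 p.2.2}).preimage h2
  have h3 := isClosed_iInter (fun n => h1 (fun a b z => (a ≠ 0 ∧ Bef a b) ∧
      (∃ c d : F, c ≠ 0 ∧ d ≠ 0 ∧ G R (c • a) ∧ G R (d • b) ∧
        R (d • b) (c • a)) ∧ (∃ c : F, c ≠ 0 ∧ G R (c • z) ∧ R (c • z) 0)) n)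
  convert h3 using 1
  ext x
  simp only [Set.mem_iInter, Set.mem_ofPred_eq]

/-- Everything except the hitting lemma. -/
theorem main_of_hit (hR : Good R) (hs : ∀ n y, ¬ R (Finsupp.single n (1 : F)) y)
    (hit : ∀ V : Submodule F (ℕ →₀ F), Rich R V → ∀ s, Node R s → ∃ w ∈ V, G R w ∧ R w s) :
    ∃ A : Set (Submodule F (ℕ →₀ F)), A.Infinite ∧ IsMadFamily A ∧ ClosedInProduct (Codes A) :=
  ⟨Fam R, infinite_of_hit hR hs hit, mad_of_hit hR hit, closed_codes hR⟩

end Pool.Agent.MadBlock
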