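import Mathlib
import Pool.Agent.MadBlock.Mad

namespace Pool.Agent.MadBlock

open Submodule

variable {F : Type*} [Field F] {R : (ℕ →₀ F) → (ℕ →₀ F) → Prop}

/-- Clique lemma: if a longer tail `tl κ1 z'` is accepted, then a shorter accepted tail `tl κ2 z'`
is in conflict with no vector `f + z'`, `f < z'`. -/
theorem clique {f z' y : ℕ →₀ F} {κ1 κ2 : ℕ} (h12 : κ1 < κ2) (h1 : z' κ1 ≠ 0) (h2 : z' κ2 ≠ 0)
    (hf : ∀ i, κ1 ≤ i → f i = 0) (hG1 : G R (tl κ1 z')) (hG2 : G R (tl κ2 z'))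
    (hy : R (tl κ2 z') y) : hd κ2 (f + z') ∉ Tl (Sp R y) := by
  rintro ⟨u, hu, k, hk⟩
  have e1 : tl κ2 (tl κ1 z') = tl κ2 z' := by
    rw [tl_tl, max_eq_left (le_of_lt h12)]
  refine hG1.noconf κ2 ?_ ?_ (by rw [e1]; exact hG2) y (by rw [e1]; exact hy)
    ⟨u, hu, max κ1 k, ?_⟩
  · rw [tl_apply, if_pos (le_of_lt h12)]; exact h2
  · intro h
    have := DFunLike.congr_fun h κ1
    rw [hd_apply, if_pos h12, tl_apply, if_pos (le_refl _)] at this
    exact h1 this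
  · rw [← tl_tl, hk]
    ext i
    rw [tl_apply, hd_apply, hd_apply, tl_apply]
    by_cases h3 : κ1 ≤ i
    · rw [if_pos h3, if_pos h3]
      by_cases h4 : i < κ2
      · rw [if_pos h4, if_pos h4, Finsupp.add_apply, hf i h3, zero_add]
      · rw [if_neg h4, if_neg h4]
    · rw [if_neg h3, if_neg h3]
      simp

/-- no conflict of `w` at the support points of `t` -/
def NoConf (R : (ℕ →₀ F) → (ℕ →₀ F) → Prop) (w t : ℕ →₀ F) : Prop :=
  ∀ κ, t κ ≠ 0 → G R (tl κ w) → ∀ y, R (tl κ w) y → hd κ w ∉ Tl (Sp R y)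

theorem pick (hR : Good R) {X X' t : ℕ →₀ F} {q : ℕ} (hX : ∀ i, q ≤ i → X i = 0)
    (hX' : ∀ i, q ≤ i → X' i = 0) (ht : ∀ i, i < q → t i = 0)
    (hsep : ∀ y, Node R y → ∀ g ∈ Sp R y, ∀ g' ∈ Sp R y, ∀ k k' κ, t κ ≠ 0 →
      tl k g = hd κ (X + t) → tl k' g' = hd κ (X' + t) → False) :
    NoConf R (X + t) t ∨ NoConf R (X' + t) t := by
  classical
  by_contra hcon
  push Not at hcon
  obtain ⟨h1, h2⟩ := hcon
  unfold NoConf at h1 h2
  push Not at h1 h2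
  obtain ⟨κ, hκ, hG, y, hy, hc⟩ := h1
  obtain ⟨κ', hκ', hG', y', hy', hc'⟩ := h2
  have hq : ∀ j, t j ≠ 0 → q ≤ j := by
    intro j hj
    by_contra h
    exact hj (ht j (by omega))
  have e1 : ∀ j, q ≤ j → tl j (X + t) = tl j t := by
    intro j hj
    ext i
    rw [tl_apply, tl_apply]
    split_ifs with h3
    · rw [Finsupp.add_apply, hX i (by omega), zero_add]
    · rfl
  have e2 : ∀ j, q ≤ j → tl j (X' + t) = tl j t := by
    intro j hj
    ext i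
    rw [tl_apply, tl_apply]
    split_ifs with h3
    · rw [Finsupp.add_apply, hX' i (by omega), zero_add]
    · rfl
  rw [e1 κ (hq κ hκ)] at hG hy
  rw [e2 κ' (hq κ' hκ')] at hG' hy'
  have hkk : κ = κ' := by
    rcases lt_trichotomy κ κ' with h3 | h3 | h3
    · exfalso
      exact clique h3 hκ hκ' (fun i hi => hX' i (le_trans (hq κ hκ) hi)) hG hG' hy' hc'
    · exact h3
    · exfalso
      exact clique h3 hκ' hκ (fun i hi => hX i (le_trans (hq κ' hκ') hi)) hG' hG hy hc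
  subst hkk
  obtain rfl := hR.func _ _ _ hy hy'
  obtain ⟨y1, h3, h4, _⟩ := hG.parent
  obtain rfl := hR.func _ _ _ hy h3
  obtain ⟨g, hg, k, hk⟩ := hc
  obtain ⟨g', hg', k', hk'⟩ := hc'
  exact hsep y h4 g hg g' hg' k k' κ hκ hk hk'

/-- the separation hypothesis of `pick` from `sep` -/
theorem sep_vec (hR : Good R) {X X' t a b c : ℕ →₀ F} {P A B C : ℕ} {α α' β β' γ γ' : F}
    (hPA : P < A) (hAB : A < B) (hBC : B < C)
    (hP : X P ≠ 0) (hPg : ∀ k, P ≤ k → k < A → X k = X' k)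
    (ha : ∀ k, a k ≠ 0 → A ≤ k ∧ k < B) (haA : a A ≠ 0)
    (hb : ∀ k, b k ≠ 0 → B ≤ k ∧ k < C) (hbB : b B ≠ 0) (hcC : c C ≠ 0)
    (h1 : ∀ k, A ≤ k → k < B → X k = α * a k) (h1' : ∀ k, A ≤ k → k < B → X' k = α' * a k)
    (h2 : ∀ k, B ≤ k → k < C → X k = β * b k) (h2' : ∀ k, B ≤ k → k < C → X' k = β' * b k)
    (h3 : X C = γ * c C) (h3' : X' C = γ' * c C) (ht : ∀ k, k ≤ C → t k = 0)
    (hα : α ≠ 0) (hα' : α' ≠ 0) (hβ : β ≠ 0) (hβ' : β' ≠ 0) (hγ : γ ≠ 0) (hγ' : γ' ≠ 0)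
    (hne1 : α ≠ α') (hne2 : β * α' ≠ β' * α) (hne3 : γ * β' ≠ γ' * β)
    (hinc : ∀ y, Node R y → ¬ (a ∈ Sp R y ∧ b ∈ Sp R y)) :
    ∀ y, Node R y → ∀ g ∈ Sp R y, ∀ g' ∈ Sp R y, ∀ k k' κ, t κ ≠ 0 →
      tl k g = hd κ (X + t) → tl k' g' = hd κ (X' + t) → False := by
  intro y hy g hg g' hg' k k' κ hκ hk hk'
  have hCκ : C < κ := by
    by_contra h
    exact hκ (ht κ (by omega))
  have hXP' : X' P ≠ 0 := by
    rw [← hPg P (le_refl _) hPA]; exact hP
  have ev : ∀ i, i ≤ C → (hd κ (X + t)) i = X i := by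
    intro i hi
    rw [hd_apply, if_pos (by omega), Finsupp.add_apply, ht i hi, add_zero]
  have ev' : ∀ i, i ≤ C → (hd κ (X' + t)) i = X' i := by
    intro i hi
    rw [hd_apply, if_pos (by omega), Finsupp.add_apply, ht i hi, add_zero]
  have hkP : k ≤ P := by
    by_contra h
    have := DFunLike.congr_fun hk P
    rw [tl_apply, if_neg h, ev P (by omega)] at this
    exact hP this.symm
  have hkP' : k' ≤ P := by
    by_contra h
    have := DFunLike.congr_fun hk' P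
    rw [tl_apply, if_neg h, ev' P (by omega)] at this
    exact hXP' this.symm
  have gv : ∀ i, P ≤ i → i ≤ C → g i = X i := by
    intro i hi hi'
    have := DFunLike.congr_fun hk i
    rwa [tl_apply, if_pos (by omega), ev i hi'] at this
  have gv' : ∀ i, P ≤ i → i ≤ C → g' i = X' i := by
    intro i hi hi'
    have := DFunLike.congr_fun hk' i
    rwa [tl_apply, if_pos (by omega), ev' i hi'] at this
  refine hinc y hy (sep hR hy (c := c) hg hg' hPA hAB hBC ?_ ?_ ha haA hb hbB hcC ?_ ?_ ?_ ?_ ?_ ?_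
    hα hα' hβ hβ' hγ hγ' hne1 hne2 hne3)
  · rw [gv P (le_refl _) (by omega)]; exact hP
  · intro i hi hi'
    rw [gv i hi (by omega), gv' i hi (by omega), hPg i hi hi']
  · intro i hi hi'
    rw [gv i (by omega) (by omega), h1 i hi hi']
  · intro i hi hi'
    rw [gv' i (by omega) (by omega), h1' i hi hi']
  · intro i hi hi'
    rw [gv i (by omega) (by omega), h2 i hi hi']
  · intro i hi hi'
    rw [gv' i (by omega) (by omega), h2' i hi hi']
  · rw [gv C (by omega) (le_refl _), h3]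
  · rw [gv' C (by omega) (le_refl _), h3']

/-! ### choosing vectors far out in a rich subspace -/

/-- `v` lives in the interval `[m, n)`, `p` is its first and `q` its last support point -/
structure Loc (v : ℕ →₀ F) (p q : ℕ) : Prop where
  fst : v p ≠ 0
  lst : v q ≠ 0
  lo : ∀ i, i < p → v i = 0
  hi : ∀ i, q < i → v i = 0

theorem Loc.le {v : ℕ →₀ F} {p q : ℕ} (h : Loc v p q) : p ≤ q := by
  by_contra h1
  exact h.fst (h.hi p (by omega))

theorem exists_loc {v : ℕ →₀ F} (hv : v ≠ 0) : ∃ p q, Loc v p q := by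
  obtain ⟨p, hp, hp'⟩ := exists_min hv
  obtain ⟨q, hq, hq'⟩ := exists_max hv
  exact ⟨p, q, hp, hq, hp', hq'⟩

theorem Rich.pair {V : Submodule F (ℕ →₀ F)} (hV : Rich R V) (n : ℕ) :
    ∃ a ∈ V, ∃ b ∈ V, ∃ p q p' q', Loc a p q ∧ Loc b p' q' ∧ n ≤ p ∧ q < p' ∧
      ∀ y, Node R y → ¬ (a ∈ Sp R y ∧ b ∈ Sp R y) := by
  obtain ⟨a, ha, b, hb, ha0, hb0, h1, h2, h3⟩ := hV n
  obtain ⟨p, q, hpq⟩ := exists_loc ha0
  obtain ⟨p', q', hpq'⟩ := exists_loc hb0
  exact ⟨a, ha, b, hb, p, q, p', q', hpq, hpq', h1 p (Finsupp.mem_support_iff.mpr hpq.fst),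
    h2 q (Finsupp.mem_support_iff.mpr hpq.lst) p' (Finsupp.mem_support_iff.mpr hpq'.fst), h3⟩

theorem Rich.vec {V : Submodule F (ℕ →₀ F)} (hV : Rich R V) (n : ℕ) :
    ∃ a ∈ V, ∃ p q, Loc a p q ∧ n ≤ p := by
  obtain ⟨a, ha, _, _, p, q, _, _, h1, _, h2, _⟩ := hV.pair n
  exact ⟨a, ha, p, q, h1, h2⟩

end Pool.Agent.MadBlock
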