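import Mathlib
import Pool.Agent.MadBlock.Pick

namespace Pool.Agent.MadBlock

open Submodule

variable {F : Type*} [Field F]

/-! ### counting changes of coefficients -/

theorem Loc.smul {v : ℕ →₀ F} {p q : ℕ} (h : Loc v p q) {c : F} (hc : c ≠ 0) :
    Loc (c • v) p q := by
  refine ⟨?_, ?_, ?_, ?_⟩
  · simpa using ⟨hc, h.fst⟩
  · simpa using ⟨hc, h.lst⟩
  · intro i hi; simp [h.lo i hi]
  · intro i hi; simp [h.hi i hi]

theorem Loc.add {f g : ℕ →₀ F} {p q p' q' : ℕ} (hf : Loc f p q) (hg : Loc g p' q') (h : q < p') :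
    Loc (f + g) p q' := by
  have := hf.le
  have := hg.le
  refine ⟨?_, ?_, ?_, ?_⟩
  · rw [Finsupp.add_apply, hg.lo p (by omega), add_zero]; exact hf.fst
  · rw [Finsupp.add_apply, hf.hi q' (by omega), zero_add]; exact hg.lst
  · intro i hi; rw [Finsupp.add_apply, hf.lo i hi, hg.lo i (by omega), add_zero]
  · intro i hi; rw [Finsupp.add_apply, hf.hi i (by omega), hg.hi i hi, add_zero]

/-- `j` is a change point of `z`: its coefficient differs from the previous nonzero one. -/
def Chg (z : ℕ →₀ F) (j : ℕ) : Prop :=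
  z j ≠ 0 ∧ ∃ i, i < j ∧ z i ≠ 0 ∧ (∀ l, i < l → l < j → z l = 0) ∧ z i ≠ z j

open Classical in
/-- the number of change points -/
noncomputable def Nc (z : ℕ →₀ F) : ℕ := (z.support.filter (Chg z)).card

open Classical in
/-- the number of change points up to `κ` -/
noncomputable def Cc (z : ℕ →₀ F) (κ : ℕ) : ℕ := ((Finset.range (κ + 1)).filter (Chg z)).card

theorem Chg_smul {z : ℕ →₀ F} {c : F} (hc : c ≠ 0) (j : ℕ) : Chg (c • z) j ↔ Chg z j := by
  unfold Chg
  simp only [Finsupp.smul_apply, smul_eq_mul, ne_eq, mul_eq_zero, hc, false_or,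
    mul_right_inj' hc]

theorem Chg_congr {z z' : ℕ →₀ F} {j : ℕ} (h : ∀ i, i ≤ j → z i = z' i) : Chg z j ↔ Chg z' j := by
  unfold Chg
  constructor
  · rintro ⟨h1, i, h2, h3, h4, h5⟩
    rw [h j le_rfl] at h1 h5
    rw [h i h2.le] at h3 h5
    exact ⟨h1, i, h2, h3, fun l hl hl' => by rw [← h l hl'.le]; exact h4 l hl hl', h5⟩
  · rintro ⟨h1, i, h2, h3, h4, h5⟩
    rw [← h j le_rfl] at h1 h5
    rw [← h i h2.le] at h3 h5
    exact ⟨h1, i, h2, h3, fun l hl hl' => by rw [h l hl'.le]; exact h4 l hl hl', h5⟩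

theorem Nc_smul {z : ℕ →₀ F} {c : F} (hc : c ≠ 0) : Nc (c • z) = Nc z := by
  classical
  unfold Nc
  rw [Finsupp.support_smul_eq hc]
  congr 1
  apply Finset.filter_congr
  intro j _
  exact Chg_smul hc j

theorem Cc_smul {z : ℕ →₀ F} {c : F} (hc : c ≠ 0) (κ : ℕ) : Cc (c • z) κ = Cc z κ := by
  classical
  unfold Cc
  congr 1
  apply Finset.filter_congr
  intro j _
  exact Chg_smul hc j

theorem Cc_congr {z z' : ℕ →₀ F} {κ : ℕ} (h : ∀ i, i ≤ κ → z i = z' i) : Cc z κ = Cc z' κ := by
  classical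
  unfold Cc
  congr 1
  apply Finset.filter_congr
  intro j hj
  rw [Finset.mem_range] at hj
  exact Chg_congr (fun i hi => h i (by omega))

theorem Chg_tl {z : ℕ →₀ F} {κ : ℕ} (h : z κ ≠ 0) (j : ℕ) :
    Chg (tl κ z) j ↔ κ < j ∧ Chg z j := by
  unfold Chg
  constructor
  · rintro ⟨h1, i, h2, h3, h4, h5⟩
    rw [tl_apply] at h1 h3
    have hκi : κ ≤ i := by
      by_contra h6
      rw [if_neg h6] at h3
      exact h3 rfl
    have hκj : κ ≤ j := by omega
    rw [if_pos hκi] at h3
    rw [if_pos hκj] at h1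
    rw [tl_apply, tl_apply, if_pos hκi, if_pos hκj] at h5
    refine ⟨by omega, h1, i, h2, h3, ?_, h5⟩
    intro l hl hl'
    have := h4 l hl hl'
    rwa [tl_apply, if_pos (by omega)] at this
  · rintro ⟨h0, h1, i, h2, h3, h4, h5⟩
    have hκi : κ ≤ i := by
      by_contra h6
      exact h (h4 κ (by omega) h0)
    refine ⟨?_, i, h2, ?_, ?_, ?_⟩
    · rw [tl_apply, if_pos h0.le]; exact h1
    · rw [tl_apply, if_pos hκi]; exact h3
    · intro l hl hl'
      rw [tl_apply, if_pos (by omega)]; exact h4 l hl hl'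
    · rw [tl_apply, tl_apply, if_pos hκi, if_pos h0.le]; exact h5

theorem Nc_split {z : ℕ →₀ F} {κ : ℕ} (h : z κ ≠ 0) : Nc z = Nc (tl κ z) + Cc z κ := by
  classical
  unfold Nc Cc
  rw [← Finset.card_union_of_disjoint]
  · congr 1
    ext j
    simp only [Finset.mem_union, Finset.mem_filter, Finset.mem_range, Finsupp.mem_support_iff]
    rw [Chg_tl h j]
    constructor
    · rintro ⟨h1, h2⟩
      by_cases h3 : κ < j
      · left
        refine ⟨?_, h3, h2⟩
        rw [tl_apply, if_pos h3.le]; exact h1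
      · right
        exact ⟨by omega, h2⟩
    · rintro (⟨h1, h2, h3⟩ | ⟨h1, h2⟩)
      · exact ⟨h3.1, h3⟩
      · exact ⟨h2.1, h2⟩
  · rw [Finset.disjoint_left]
    intro j hj hj'
    simp only [Finset.mem_filter, Finset.mem_range, Finsupp.mem_support_iff] at hj hj'
    rw [Chg_tl h j] at hj
    omega

theorem Nc_add {f g : ℕ →₀ F} {p q p' q' : ℕ} (hf : Loc f p q) (hg : Loc g p' q') (h : q < p') :
    (f q = g p' → Nc (f + g) = Nc f + Nc g) ∧ (f q ≠ g p' → Nc (f + g) = Nc f + Nc g + 1) := by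
  classical
  have hle := hf.le
  have hle' := hg.le
  have hne : (f + g) p' ≠ 0 := by
    rw [Finsupp.add_apply, hf.hi p' h, zero_add]; exact hg.fst
  have htl : tl p' (f + g) = g := by
    ext i
    rw [tl_apply]
    split_ifs with h1
    · rw [Finsupp.add_apply, hf.hi i (by omega), zero_add]
    · exact (hg.lo i (by omega)).symm
  have key : ∀ j, (j ≤ p' ∧ Chg (f + g) j) ↔ (Chg f j ∨ (f q ≠ g p' ∧ j = p')) := by
    intro j
    rcases lt_trichotomy j p' with h1 | h1 | h1
    · have : Chg (f + g) j ↔ Chg f j := Chg_congr (fun i hi => by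
        rw [Finsupp.add_apply, hg.lo i (by omega), add_zero])
      rw [this]
      constructor
      · rintro ⟨_, h2⟩; exact Or.inl h2
      · rintro (h2 | ⟨_, h2⟩)
        · exact ⟨h1.le, h2⟩
        · omega
    · subst h1
      constructor
      · rintro ⟨_, h1, i, h2, h3, h4, h5⟩
        right
        refine ⟨?_, rfl⟩
        rw [Finsupp.add_apply, hg.lo i h2, add_zero] at h3 h5
        rw [Finsupp.add_apply, hf.hi j h, zero_add] at h5
        have hiq : i = q := by
          rcases lt_trichotomy i q with h6 | h6 | h6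
          · exfalso
            have := h4 q h6 h
            rw [Finsupp.add_apply, hg.lo q h, add_zero] at this
            exact hf.lst this
          · exact h6
          · exact absurd (hf.hi i h6) h3
        rw [← hiq]; exact h5
      · rintro (h1 | ⟨h1, _⟩)
        · exact absurd (hf.hi j h) h1.1
        · refine ⟨le_rfl, hne, q, h, ?_, ?_, ?_⟩
          · rw [Finsupp.add_apply, hg.lo q h, add_zero]; exact hf.lst
          · intro l hl hl'
            rw [Finsupp.add_apply, hf.hi l hl, hg.lo l hl', add_zero]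
          · rw [Finsupp.add_apply, hg.lo q h, add_zero, Finsupp.add_apply, hf.hi j h, zero_add]
            exact h1
    · constructor
      · rintro ⟨h2, _⟩; omega
      · rintro (h2 | ⟨_, h2⟩)
        · exact absurd (hf.hi j (by omega)) h2.1
        · omega
  have hCc : Cc (f + g) p' = ((f.support.filter (Chg f)) ∪ (if f q = g p' then ∅ else {p'})).card := by
    unfold Cc
    congr 1
    ext j
    simp only [Finset.mem_union, Finset.mem_filter, Finset.mem_range, Finsupp.mem_support_iff]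
    rw [Nat.lt_succ_iff, key j]
    constructor
    · rintro (h1 | ⟨h1, h2⟩)
      · exact Or.inl ⟨h1.1, h1⟩
      · right
        rw [if_neg h1]
        simp [h2]
    · rintro (⟨_, h1⟩ | h1)
      · exact Or.inl h1
      · split_ifs at h1 with h2
        · simp at h1
        · right
          exact ⟨h2, by simpa using h1⟩
  have hN := Nc_split hne
  rw [htl] at hN
  constructor
  · intro h1
    rw [if_pos h1, Finset.union_empty] at hCc
    rw [hN, hCc]
    unfold Nc
    ring
  · intro h1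
    rw [if_neg h1, Finset.card_union_of_disjoint] at hCc
    · rw [hN, hCc]
      unfold Nc
      rw [Finset.card_singleton]
      ring
    · rw [Finset.disjoint_singleton_right, Finset.mem_filter, Finsupp.mem_support_iff]
      rintro ⟨h2, _⟩
      exact h2 (hf.hi p' h)

theorem Nc_zero : Nc (0 : ℕ →₀ F) = 0 := by
  classical
  unfold Nc; simp

theorem Nc_single (n : ℕ) : Nc (Finsupp.single n (1 : F)) = 0 := by
  classical
  unfold Nc
  rw [Finset.card_eq_zero, Finset.filter_eq_empty_iff]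
  intro j hj h
  have h1 : ∀ i, Finsupp.single n (1 : F) i ≠ 0 → i = n := by
    intro i hi
    by_contra hne
    exact hi (Finsupp.single_eq_of_ne hne)
  obtain ⟨h2, i, h3, h4, _⟩ := h
  have := h1 j h2
  have := h1 i h4
  omega

/-! ### residues -/

theorem residue {E : Type*} [DecidableEq E] (p : E → ℕ) (hp : ∀ y, 4 ≤ p y)
    (hcop : ∀ y y', y ≠ y' → Nat.Coprime (p y) (p y')) (S : Finset E) (s : E) (hs : s ∈ S)
    (c c' : E → ℕ) (N0 : ℕ) :
    ∃ κ, κ < ∏ y ∈ S, p y ∧ p s ∣ N0 + κ ∧ ∀ y ∈ S, y ≠ s → ¬ p y ∣ N0 + κ ∧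
      ¬ N0 + κ ≡ c y [MOD p y] ∧ ¬ N0 + κ ≡ c' y [MOD p y] := by
  have h1 : ∀ y, ∃ a : ℕ, 1 ≤ a ∧ a ≤ 3 ∧ ¬ a ≡ c y [MOD p y] ∧ ¬ a ≡ c' y [MOD p y] := by
    intro y
    by_contra hcon
    push Not at hcon
    have e : ∀ a, 1 ≤ a → a ≤ 3 → a = c y % p y ∨ a = c' y % p y := by
      intro a h1 h2
      have h3 : a % p y = a := Nat.mod_eq_of_lt (by have := hp y; omega)
      by_cases h4 : a ≡ c y [MOD p y]
      · left
        unfold Nat.ModEq at h4
        rw [← h4, h3]
      · right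
        have := hcon a h1 h2 h4
        unfold Nat.ModEq at this
        rw [← this, h3]
    have e1 := e 1 (by omega) (by omega)
    have e2 := e 2 (by omega) (by omega)
    have e3 := e 3 (by omega) (by omega)
    omega
  choose a ha1 ha2 ha3 ha4 using h1
  let b : E → ℕ := fun y => (p y - 1) * N0 + (if y = s then 0 else a y)
  have hne : ∀ i ∈ S, p i ≠ 0 := fun i _ => by have := hp i; omega
  have hpp : Set.Pairwise (↑S) (Function.onFun Nat.Coprime p) := by
    intro i _ j _ hij
    exact hcop i j hij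
  let κ := Nat.chineseRemainderOfFinset b p S hne hpp
  have hκ := κ.2
  have hmod : ∀ y ∈ S, N0 + κ.1 ≡ (if y = s then 0 else a y) [MOD p y] := by
    intro y hy
    have h2 := Nat.ModEq.add_left N0 (hκ y hy)
    refine h2.trans ?_
    have h3 : N0 + b y = p y * N0 + (if y = s then 0 else a y) := by
      simp only [b]
      obtain ⟨m, hm⟩ : ∃ m, p y = m + 1 := ⟨p y - 1, by have := hp y; omega⟩
      rw [hm, Nat.add_sub_cancel]
      ring
    rw [h3]
    have h4 : p y * N0 ≡ 0 [MOD p y] := by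
      rw [Nat.modEq_zero_iff_dvd]
      exact dvd_mul_right _ _
    have h5 := h4.add_right (if y = s then 0 else a y)
    rwa [zero_add] at h5
  refine ⟨κ.1, Nat.chineseRemainderOfFinset_lt_prod b p hne hpp, ?_, ?_⟩
  · have h2 := hmod s hs
    rw [if_pos rfl] at h2
    exact (Nat.modEq_zero_iff_dvd).mp h2
  · intro y hy hys
    have h2 := hmod y hy
    rw [if_neg hys] at h2
    refine ⟨?_, ?_, ?_⟩
    · intro h3
      have h4 : a y ≡ 0 [MOD p y] := h2.symm.trans ((Nat.modEq_zero_iff_dvd).mpr h3)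
      rw [Nat.modEq_zero_iff_dvd] at h4
      have h5 := Nat.le_of_dvd (by have := ha1 y; omega) h4
      have := ha2 y
      have := hp y
      omega
    · intro h3
      exact ha3 y (h2.symm.trans h3)
    · intro h3
      exact ha4 y (h2.symm.trans h3)

/-! ### the parent relation for finite fields -/

/-- pairwise coprime moduli -/
def pm (e : (ℕ →₀ F) → ℕ) (y : ℕ →₀ F) : ℕ := Nat.fermatNumber (e y + 2)

theorem pm_ge (e : (ℕ →₀ F) → ℕ) (y : ℕ →₀ F) : 4 ≤ pm e y := by
  unfold pm
  have := Nat.fermatNumber_mono (show 2 ≤ e y + 2 by omega)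
  rw [Nat.fermatNumber_two] at this
  omega

theorem pm_cop {e : (ℕ →₀ F) → ℕ} (he : Function.Injective e) (y y' : ℕ →₀ F) (h : y ≠ y') :
    Nat.Coprime (pm e y) (pm e y') := by
  unfold pm
  apply Nat.coprime_fermatNumber_fermatNumber
  intro h1
  exact h (he (by omega))

/-- `z` codes the parent `y`: the number of changes of `z` is positive and the first modulus that
divides it is the one of `y`. -/
def RFin (e : (ℕ →₀ F) → ℕ) (z y : ℕ →₀ F) : Prop :=
  0 < Nc z ∧ pm e y ∣ Nc z ∧ ∀ y', e y' < e y → ¬ pm e y' ∣ Nc z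

theorem RFin_good {e : (ℕ →₀ F) → ℕ} (he : Function.Injective e) : Good (RFin e) := by
  constructor
  · rintro z y y' ⟨_, h1, h2⟩ ⟨_, h3, h4⟩
    apply he
    rcases lt_trichotomy (e y) (e y') with h | h | h
    · exact absurd h1 (h4 y h)
    · exact h
    · exact absurd h3 (h2 y' h)
  · rintro y ⟨h, _⟩
    rw [Nc_zero] at h
    exact lt_irrefl _ h

theorem RFin_single {e : (ℕ →₀ F) → ℕ} (n : ℕ) (y : ℕ →₀ F) :
    ¬ RFin e (Finsupp.single n 1) y := by
  rintro ⟨h, _⟩
  rw [Nc_single] at h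
  exact lt_irrefl _ h

/-! ### a family of vectors with prescribed numbers of changes -/

theorem top_family {R : (ℕ →₀ F) → (ℕ →₀ F) → Prop} {V : Submodule F (ℕ →₀ F)} (hV : Rich R V)
    {θ : F} (h0 : θ ≠ 0) (h1 : θ ≠ 1) (n : ℕ) : ∀ Q : ℕ, ∃ (k : ℕ) (f : F) (N1 M : ℕ), n ≤ k ∧
      ∀ κ ≤ Q, ∃ T ∈ V, ∃ q, Loc T k q ∧ q < M ∧ T k = f ∧ Nc T = N1 + κ := by
  intro Q
  induction Q with
  | zero =>
    obtain ⟨v, hv, p, q, Lv, hp⟩ := hV.vec n
    refine ⟨p, v p, Nc v, q + 1, hp, ?_⟩
    intro κ hκ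
    obtain rfl : κ = 0 := by omega
    exact ⟨v, hv, q, Lv, by omega, rfl, rfl⟩
  | succ Q ih =>
    obtain ⟨k, f, N1, M, hk, hT⟩ := ih
    obtain ⟨v, hv, p, q, Lv, hp⟩ := hV.vec M
    refine ⟨k, f, N1 + Nc v, q + 1, hk, ?_⟩
    intro κ hκ
    rcases Nat.eq_or_lt_of_le hκ with h | h
    · -- one more change
      obtain ⟨T, hTV, qT, LT, hqT, hTk, hNT⟩ := hT Q le_rfl
      have hc : θ * T qT / v p ≠ 0 := div_ne_zero (mul_ne_zero h0 LT.lst) Lv.fst
      have hLT := LT.le
      refine ⟨T + (θ * T qT / v p) • v, add_mem hTV (smul_mem _ _ hv), q,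
        LT.add (Lv.smul hc) (by omega), by omega, ?_, ?_⟩
      · rw [Finsupp.add_apply, Finsupp.smul_apply, Lv.lo k (by omega), smul_zero, add_zero, hTk]
      · rw [(Nc_add LT (Lv.smul hc) (by omega)).2, Nc_smul hc, hNT, h]
        · ring
        · rw [Finsupp.smul_apply, smul_eq_mul, div_mul_cancel₀ _ Lv.fst]
          intro h2
          apply h1
          have h3 : θ * T qT = 1 * T qT := by rw [← h2, one_mul]
          exact mul_right_cancel₀ LT.lst h3
    · obtain ⟨T, hTV, qT, LT, hqT, hTk, hNT⟩ := hT κ (by omega)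
      have hc : T qT / v p ≠ 0 := div_ne_zero LT.lst Lv.fst
      have hLT := LT.le
      refine ⟨T + (T qT / v p) • v, add_mem hTV (smul_mem _ _ hv), q,
        LT.add (Lv.smul hc) (by omega), by omega, ?_, ?_⟩
      · rw [Finsupp.add_apply, Finsupp.smul_apply, Lv.lo k (by omega), smul_zero, add_zero, hTk]
      · rw [(Nc_add LT (Lv.smul hc) (by omega)).1, Nc_smul hc, hNT]
        · ring
        · rw [Finsupp.smul_apply, smul_eq_mul, div_mul_cancel₀ _ Lv.fst]

end Pool.Agent.MadBlock
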