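import Mathlib
import Pool.Agent.MadBlock.Count

namespace Pool.Agent.MadBlock

open Submodule

variable {F : Type*} [Field F]

/-- `k` is a possible conflict position of `X` with a node `y` -/
def Cf (y X : ℕ →₀ F) (k : ℕ) : Prop :=
  X k ≠ 0 ∧ (∀ j ∈ y.support, j < k) ∧ ∀ i, i < k → X i ≠ 0 → ∃ j ∈ y.support, i ≤ j

theorem Cf_unique {y X : ℕ →₀ F} {k k' : ℕ} (h : Cf y X k) (h' : Cf y X k') : k = k' := by
  rcases lt_trichotomy k k' with h1 | h1 | h1
  · exfalso
    obtain ⟨j, hj, hj'⟩ := h'.2.2 k h1 h.1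
    have := h.2.1 j hj
    omega
  · exact h1
  · exfalso
    obtain ⟨j, hj, hj'⟩ := h.2.2 k' h1 h'.1
    have := h'.2.1 j hj
    omega

open Classical in
/-- the number of changes of `X` up to the possible conflict position with `y` -/
noncomputable def cf (y X : ℕ →₀ F) : ℕ :=
  if h : ∃ k, Cf y X k then Cc X (Classical.choose h) else 0

theorem cf_eq {y X : ℕ →₀ F} {k : ℕ} (h : Cf y X k) : cf y X = Cc X k := by
  have hex : ∃ k, Cf y X k := ⟨k, h⟩
  unfold cf
  rw [dif_pos hex, Cf_unique (Classical.choose_spec hex) h]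

theorem Nc_step {f g : ℕ →₀ F} {p q p' q' : ℕ} (hf : Loc f p q) (hg : Loc g p' q') (h : q < p')
    {m : F} (hm : m ≠ 0) :
    Loc (f + m • g) p q' ∧ (f + m • g) q' = m * g q' ∧
    (m * g p' = f q → Nc (f + m • g) = Nc f + Nc g) ∧
    (m * g p' ≠ f q → Nc (f + m • g) = Nc f + Nc g + 1) := by
  have hle := hg.le
  refine ⟨hf.add (hg.smul hm) h, ?_, ?_, ?_⟩
  · rw [Finsupp.add_apply, hf.hi q' (by omega), zero_add, Finsupp.smul_apply, smul_eq_mul]
  · intro h1
    rw [(Nc_add hf (hg.smul hm) h).1, Nc_smul hm]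
    rw [Finsupp.smul_apply, smul_eq_mul, h1]
  · intro h1
    rw [(Nc_add hf (hg.smul hm) h).2, Nc_smul hm]
    rw [Finsupp.smul_apply, smul_eq_mul]
    exact fun h2 => h1 h2.symm

theorem fin_finish {e : (ℕ →₀ F) → ℕ} (he : Function.Injective e) {s : ℕ →₀ F}
    (hs : Node (RFin e) s) {n0 : ℕ} (hn0 : ∀ i, n0 ≤ i → s i = 0)
    {X T : ℕ →₀ F} {P q k qT : ℕ} (LX : Loc X P q) (hP : n0 ≤ P) (LT : Loc T k qT) (hqk : q < k)
    {lam : F} (hlam : lam * T qT = 1) (hNpos : 0 < Nc (X + T)) (hdiv : pm e s ∣ Nc (X + T))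
    (S : Finset (ℕ →₀ F)) (hS1 : ∀ y : ℕ →₀ F, (∀ i, q < i → y i = 0) → y ∈ S)
    (hS2 : ∀ y, e y < e s → y ∈ S)
    (hres : ∀ y ∈ S, y ≠ s → ¬ pm e y ∣ Nc (X + T) ∧ ¬ Nc (X + T) ≡ cf y X [MOD pm e y])
    (hNC : NoConf (RFin e) (lam • X + lam • T) (lam • T)) :
    G (RFin e) (lam • X + lam • T) ∧ RFin e (lam • X + lam • T) s := by
  have hR := RFin_good he
  have hlam0 : lam ≠ 0 := by rintro rfl; simp at hlam
  have hlX := LX.le
  have hlT := LT.le
  set w := lam • X + lam • T with hwdef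
  have hw : w = lam • (X + T) := (smul_add _ _ _).symm
  have hNw : Nc w = Nc (X + T) := by rw [hw, Nc_smul hlam0]
  have Lw : Loc w P qT := by rw [hw]; exact (LX.add LT hqk).smul hlam0
  have wv : ∀ i, w i = lam * X i + lam * T i := fun i => by simp [hwdef]
  have hwq : w qT = 1 := by
    rw [wv, LX.hi qT (by omega), mul_zero, zero_add, hlam]
  have hRw : RFin e w s := by
    refine ⟨by rw [hNw]; exact hNpos, by rw [hNw]; exact hdiv, fun y' hy' => ?_⟩
    rw [hNw]
    exact (hres y' (hS2 y' hy') (by rintro rfl; exact lt_irrefl _ hy')).1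
  refine ⟨?_, hRw⟩
  rw [G_iff]
  refine ⟨⟨qT, hwq, Lw.hi⟩, ⟨s, hRw, ?_⟩, ?_⟩
  · rcases hs with rfl | hs
    · exact Or.inl rfl
    · refine Or.inr ⟨hs, ?_⟩
      intro i hi j hj
      have h3 : i < n0 := by
        by_contra h
        exact (Finsupp.mem_support_iff.mp hi) (hn0 i (by omega))
      have h4 : P ≤ j := by
        by_contra h
        exact (Finsupp.mem_support_iff.mp hj) (Lw.lo j (by omega))
      omega
  · intro κ hκ hhd hGt u hu hconf
    by_cases htκ : (lam • T) κ = 0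
    · have hTκ : T κ = 0 := by
        rw [Finsupp.smul_apply, smul_eq_mul] at htκ
        exact (mul_eq_zero.mp htκ).resolve_left hlam0
      have hXκ : X κ ≠ 0 := by
        intro h
        apply hκ
        rw [wv, h, hTκ]; ring
      have hκq : κ ≤ q := by
        by_contra h
        exact hXκ (LX.hi κ (by omega))
      obtain ⟨y1, h3, h4, h5⟩ := hGt.parent
      obtain rfl := hR.func _ _ _ hu h3
      obtain ⟨g, hg, k0, hk0⟩ := hconf
      have hcf : Cf u X κ := by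
        refine ⟨hXκ, ?_, ?_⟩
        · intro j hj
          exact h5 j hj κ (Finsupp.mem_support_iff.mpr
            (by rw [tl_apply, if_pos le_rfl]; exact hκ))
        · intro i hi hXi
          have hwi : w i ≠ 0 := by
            rw [wv, LT.lo i (by omega), mul_zero, add_zero]
            exact mul_ne_zero hlam0 hXi
          have hgi : g i ≠ 0 := by
            intro h
            have := DFunLike.congr_fun hk0 i
            rw [tl_apply, hd_apply, if_pos hi] at this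
            split_ifs at this with h6
            · rw [h] at this; exact hwi this.symm
            · exact hwi this.symm
          exact node_supp hR u h4 g hg i (Finsupp.mem_support_iff.mpr hgi)
      have huS : u ∈ S := hS1 u (fun i hi => by
        by_contra h
        have := hcf.2.1 i (Finsupp.mem_support_iff.mpr h)
        omega)
      have hus : u ≠ s := by
        rintro rfl
        obtain ⟨i, hi⟩ := Finsupp.support_nonempty_iff.mpr hhd
        have hi' := Finsupp.mem_support_iff.mp hi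
        rw [hd_apply] at hi'
        split_ifs at hi' with h7
        · have hPi : P ≤ i := by
            by_contra h
            exact hi' (Lw.lo i (by omega))
          have hXi : X i ≠ 0 := by
            intro h
            apply hi'
            rw [wv, h, LT.lo i (by omega)]; ring
          obtain ⟨j, hj, hij⟩ := hcf.2.2 i h7 hXi
          exact (Finsupp.mem_support_iff.mp hj) (hn0 j (by omega))
        · exact hi' rfl
      have hCc : Cc w κ = Cc X κ := by
        rw [hw, Cc_smul hlam0]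
        exact Cc_congr (fun i hi => by rw [Finsupp.add_apply, LT.lo i (by omega), add_zero])
      have hspl := Nc_split hκ
      apply (hres u huS hus).2
      rw [cf_eq hcf, ← hNw, hspl, hCc]
      have h9 := ((Nat.modEq_zero_iff_dvd).mpr hu.2.1).add_right (Cc X κ)
      rwa [zero_add] at h9
    · exact hNC κ htκ hGt u hu hconf

theorem finite_bounded [Finite F] (q : ℕ) :
    {y : ℕ →₀ F | ∀ i, q < i → y i = 0}.Finite := by
  have hfin : (Set.univ : Set (Fin (q + 1) → F)).Finite := Set.finite_univ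
  refine Set.Finite.of_injOn (f := fun y (i : Fin (q + 1)) => y i) (fun _ _ => Set.mem_univ _) ?_
    hfin
  intro y hy y' hy' h
  ext i
  rcases Nat.lt_or_ge q i with h1 | h1
  · rw [hy i h1, hy' i h1]
  · exact congrFun h ⟨i, by omega⟩

theorem hit_fin [Finite F] {θ : F} (hθ0 : θ ≠ 0) (hθ1 : θ ≠ 1) {e : (ℕ →₀ F) → ℕ}
    (he : Function.Injective e) (V : Submodule F (ℕ →₀ F)) (hV : Rich (RFin e) V) (s : ℕ →₀ F)
    (hs : Node (RFin e) s) : ∃ w ∈ V, G (RFin e) w ∧ RFin e w s := by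
  classical
  have hR : Good (RFin e) := RFin_good he
  obtain ⟨n0, hn0⟩ : ∃ n0, ∀ i, n0 ≤ i → s i = 0 := by
    refine ⟨s.support.sup id + 1, fun i hi => ?_⟩
    by_contra h
    have : i ≤ s.support.sup id := Finset.le_sup (f := id) (Finsupp.mem_support_iff.mpr h)
    omega
  obtain ⟨o, ho, P, q0, Lo, hP⟩ := hV.vec n0
  obtain ⟨a, ha, b, hb, A, q1, B, q2, La, Lb, hA, hAB, hinc⟩ := hV.pair (q0 + 1)
  obtain ⟨c, hc, C, q3, Lc, hC⟩ := hV.vec (q2 + 1)
  obtain ⟨d, hd, D, q4, Ld, hD⟩ := hV.vec (q3 + 1)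
  have hle0 := Lo.le
  have hle1 := La.le
  have hle2 := Lb.le
  have hle3 := Lc.le
  have hle4 := Ld.le
  obtain ⟨r0, hr0, er0⟩ : ∃ r : F, r ≠ 0 ∧ r * a A = o q0 :=
    ⟨o q0 / a A, div_ne_zero Lo.lst La.fst, div_mul_cancel₀ _ La.fst⟩
  obtain ⟨r1, hr1, er1⟩ : ∃ r : F, r ≠ 0 ∧ r * b B = a q1 :=
    ⟨a q1 / b B, div_ne_zero La.lst Lb.fst, div_mul_cancel₀ _ Lb.fst⟩
  obtain ⟨r2, hr2, er2⟩ : ∃ r : F, r ≠ 0 ∧ r * c C = b q2 :=
    ⟨b q2 / c C, div_ne_zero Lb.lst Lc.fst, div_mul_cancel₀ _ Lc.fst⟩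
  obtain ⟨r3, hr3, er3⟩ : ∃ r : F, r ≠ 0 ∧ r * d D = c q3 :=
    ⟨c q3 / d D, div_ne_zero Lc.lst Ld.fst, div_mul_cancel₀ _ Ld.fst⟩
  let Y : F → F → F → F → (ℕ →₀ F) := fun m1 m2 m3 m4 =>
    (((o + m1 • a) + m2 • b) + m3 • c) + m4 • d
  have Yv : ∀ m1 m2 m3 m4 i, Y m1 m2 m3 m4 i =
      o i + m1 * a i + m2 * b i + m3 * c i + m4 * d i := by
    intro m1 m2 m3 m4 i
    simp [Y]
  have YV : ∀ m1 m2 m3 m4, Y m1 m2 m3 m4 ∈ V := by
    intro m1 m2 m3 m4
    exact add_mem (add_mem (add_mem (add_mem ho (smul_mem _ _ ha)) (smul_mem _ _ hb))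
      (smul_mem _ _ hc)) (smul_mem _ _ hd)
  have LY : ∀ m1 m2 m3 m4 : F, m1 ≠ 0 → m2 ≠ 0 → m3 ≠ 0 → m4 ≠ 0 →
      Loc (Y m1 m2 m3 m4) P q4 ∧ Y m1 m2 m3 m4 q4 = m4 * d q4 ∧
      (m1 * a A ≠ o q0 → m2 * b B = m1 * a q1 → m3 * c C = m2 * b q2 → m4 * d D ≠ m3 * c q3 →
        Nc (Y m1 m2 m3 m4) = Nc o + Nc a + Nc b + Nc c + Nc d + 2) ∧
      (m1 * a A = o q0 → m2 * b B ≠ m1 * a q1 → m3 * c C ≠ m2 * b q2 → m4 * d D = m3 * c q3 →
        Nc (Y m1 m2 m3 m4) = Nc o + Nc a + Nc b + Nc c + Nc d + 2) := by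
    intro m1 m2 m3 m4 h1 h2 h3 h4
    obtain ⟨L1, E1, F1, G1⟩ := Nc_step Lo La (by omega) h1
    obtain ⟨L2, E2, F2, G2⟩ := Nc_step L1 Lb (by omega) h2
    obtain ⟨L3, E3, F3, G3⟩ := Nc_step L2 Lc (by omega) h3
    obtain ⟨L4, E4, F4, G4⟩ := Nc_step L3 Ld (by omega) h4
    rw [E1] at F2 G2
    rw [E2] at F3 G3
    rw [E3] at F4 G4
    refine ⟨L4, E4, ?_, ?_⟩
    · intro g1 g2 g3 g4
      show Nc ((((o + m1 • a) + m2 • b) + m3 • c) + m4 • d) = _
      rw [G4 g4, F3 g3, F2 g2, G1 g1]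
      ring
    · intro g1 g2 g3 g4
      show Nc ((((o + m1 • a) + m2 • b) + m3 • c) + m4 • d) = _
      rw [F4 g4, G3 g3, G2 g2, F1 g1]
      ring
  have hcan : ∀ x : F, x ≠ 0 → θ * x ≠ x := by
    intro x hx h
    apply hθ1
    exact mul_right_cancel₀ hx (by rw [h, one_mul])
  -- the two candidates
  have hα : θ * r0 ≠ 0 := mul_ne_zero hθ0 hr0
  have hβ : θ * r0 * r1 ≠ 0 := mul_ne_zero hα hr1
  have hγ : θ * r0 * r1 * r2 ≠ 0 := mul_ne_zero hβ hr2
  have hδ : θ * r0 * r1 * r2 * (θ * r3) ≠ 0 := mul_ne_zero hγ (mul_ne_zero hθ0 hr3)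
  have hβ' : r0 * (θ * r1) ≠ 0 := mul_ne_zero hr0 (mul_ne_zero hθ0 hr1)
  have hγ' : r0 * (θ * r1) * (θ * r2) ≠ 0 := mul_ne_zero hβ' (mul_ne_zero hθ0 hr2)
  have hδ' : r0 * (θ * r1) * (θ * r2) * r3 ≠ 0 := mul_ne_zero hγ' hr3
  obtain ⟨LX, EX, NX, _⟩ := LY _ _ _ _ hα hβ hγ hδ
  obtain ⟨LX', EX', _, NX'⟩ := LY _ _ _ _ hr0 hβ' hγ' hδ'
  set X := Y (θ * r0) (θ * r0 * r1) (θ * r0 * r1 * r2) (θ * r0 * r1 * r2 * (θ * r3)) with hX
  set X' := Y r0 (r0 * (θ * r1)) (r0 * (θ * r1) * (θ * r2)) (r0 * (θ * r1) * (θ * r2) * r3)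
    with hX'
  have NX1 : Nc X = Nc o + Nc a + Nc b + Nc c + Nc d + 2 := by
    apply NX
    · rw [mul_assoc, er0]
      exact hcan _ Lo.lst
    · rw [mul_assoc, er1]
    · rw [mul_assoc, er2]
    · rw [mul_assoc, mul_assoc θ r3, er3]
      intro h
      exact hcan _ Lc.lst (mul_left_cancel₀ hγ h)
  have NX1' : Nc X' = Nc o + Nc a + Nc b + Nc c + Nc d + 2 := by
    apply NX'
    · exact er0
    · rw [mul_assoc, mul_assoc θ r1, er1]
      intro h
      exact hcan _ La.lst (mul_left_cancel₀ hr0 h)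
    · rw [mul_assoc, mul_assoc θ r2, er2]
      intro h
      exact hcan _ Lb.lst (mul_left_cancel₀ hβ' h)
    · rw [mul_assoc, er3]
  have hlast : X q4 = X' q4 := by
    rw [EX, EX']; ring
  -- the finite set of relevant nodes
  have hfin1 := finite_bounded (F := F) q4
  have hfin2 : {y | e y < e s}.Finite := (Set.finite_lt_nat (e s)).preimage he.injOn
  let S : Finset (ℕ →₀ F) := hfin1.toFinset ∪ hfin2.toFinset ∪ {s}
  have hS1 : ∀ y : ℕ →₀ F, (∀ i, q4 < i → y i = 0) → y ∈ S := by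
    intro y hy
    simp only [S, Finset.mem_union, Set.Finite.mem_toFinset]
    exact Or.inl (Or.inl hy)
  have hS2 : ∀ y, e y < e s → y ∈ S := by
    intro y hy
    simp only [S, Finset.mem_union, Set.Finite.mem_toFinset]
    exact Or.inl (Or.inr hy)
  have hsS : s ∈ S := by simp [S]
  obtain ⟨k, f, N1, M, hk, hT⟩ := top_family hV hθ0 hθ1 (q4 + 1) (∏ y ∈ S, pm e y)
  obtain ⟨κ, hκ, hdiv, hres⟩ := residue (pm e) (pm_ge e) (pm_cop he) S s hsS
    (fun y => cf y X) (fun y => cf y X')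
    (Nc o + Nc a + Nc b + Nc c + Nc d + 2 + N1 + (if X q4 = f then 0 else 1))
  obtain ⟨T, hTV, qT, LT, hqT, hTk, hNT⟩ := hT κ hκ.le
  have hleT := LT.le
  have hN : ∀ Z : ℕ →₀ F, Loc Z P q4 → Z q4 = X q4 →
      Nc Z = Nc o + Nc a + Nc b + Nc c + Nc d + 2 →
      Nc (Z + T) = Nc o + Nc a + Nc b + Nc c + Nc d + 2 + N1 + (if X q4 = f then 0 else 1) + κ := by
    intro Z LZ hZ hNZ
    obtain ⟨h1, h2⟩ := Nc_add LZ LT (by omega)
    rw [hZ, hTk] at h1 h2
    split_ifs with h3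
    · rw [h1 h3, hNZ, hNT]; ring
    · rw [h2 h3, hNZ, hNT]; ring
  have hNX := hN X LX rfl NX1
  have hNX' := hN X' LX' hlast.symm NX1'
  obtain ⟨lam, hlam⟩ : ∃ lam : F, lam * T qT = 1 := ⟨(T qT)⁻¹, inv_mul_cancel₀ LT.lst⟩
  have hlam0 : lam ≠ 0 := by rintro rfl; simp at hlam
  have hne2 : lam * (θ * r0 * r1) * (lam * r0) ≠ lam * (r0 * (θ * r1)) * (lam * (θ * r0)) := by
    intro h
    apply hθ1
    have h1 : lam * lam * r0 * r0 * r1 * θ ≠ 0 :=
      mul_ne_zero (mul_ne_zero (mul_ne_zero (mul_ne_zero (mul_ne_zero hlam0 hlam0) hr0) hr0) hr1)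
        hθ0
    exact mul_left_cancel₀ h1 (by linear_combination -h)
  have hne3 : lam * (θ * r0 * r1 * r2) * (lam * (r0 * (θ * r1))) ≠
      lam * (r0 * (θ * r1) * (θ * r2)) * (lam * (θ * r0 * r1)) := by
    intro h
    apply hθ1
    have h1 : lam * lam * r0 * r0 * r1 * r1 * r2 * θ * θ ≠ 0 :=
      mul_ne_zero (mul_ne_zero (mul_ne_zero (mul_ne_zero (mul_ne_zero (mul_ne_zero
        (mul_ne_zero (mul_ne_zero hlam0 hlam0) hr0) hr0) hr1) hr1) hr2) hθ0) hθ0
    exact mul_left_cancel₀ h1 (by linear_combination -h)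
  have hpick := pick hR (X := lam • X) (X' := lam • X') (t := lam • T) (q := k)
    (fun i hi => by rw [Finsupp.smul_apply, LX.hi i (by omega), smul_zero])
    (fun i hi => by rw [Finsupp.smul_apply, LX'.hi i (by omega), smul_zero])
    (fun i hi => by rw [Finsupp.smul_apply, LT.lo i hi, smul_zero])
    (sep_vec hR (a := a) (b := b) (c := c) (P := P) (A := A) (B := B) (C := C)
      (α := lam * (θ * r0)) (α' := lam * r0) (β := lam * (θ * r0 * r1))
      (β' := lam * (r0 * (θ * r1))) (γ := lam * (θ * r0 * r1 * r2))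
      (γ' := lam * (r0 * (θ * r1) * (θ * r2)))
      (by omega) (by omega) (by omega)
      (by rw [Finsupp.smul_apply, smul_eq_mul]; exact mul_ne_zero hlam0 LX.fst)
      (fun i hi hi' => by
        rw [Finsupp.smul_apply, Finsupp.smul_apply, hX, hX', Yv, Yv, La.lo i (by omega),
          Lb.lo i (by omega), Lc.lo i (by omega), Ld.lo i (by omega)]
        simp)
      (fun i hi => ⟨by by_contra h; exact hi (La.lo i (by omega)),
        by by_contra h; exact hi (La.hi i (by omega))⟩) La.fst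
      (fun i hi => ⟨by by_contra h; exact hi (Lb.lo i (by omega)),
        by by_contra h; exact hi (Lb.hi i (by omega))⟩) Lb.fst Lc.fst
      (fun i hi hi' => by
        rw [Finsupp.smul_apply, smul_eq_mul, hX, Yv, Lo.hi i (by omega), Lb.lo i (by omega),
          Lc.lo i (by omega), Ld.lo i (by omega)]
        ring)
      (fun i hi hi' => by
        rw [Finsupp.smul_apply, smul_eq_mul, hX', Yv, Lo.hi i (by omega), Lb.lo i (by omega),
          Lc.lo i (by omega), Ld.lo i (by omega)]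
        ring)
      (fun i hi hi' => by
        rw [Finsupp.smul_apply, smul_eq_mul, hX, Yv, Lo.hi i (by omega), La.hi i (by omega),
          Lc.lo i (by omega), Ld.lo i (by omega)]
        ring)
      (fun i hi hi' => by
        rw [Finsupp.smul_apply, smul_eq_mul, hX', Yv, Lo.hi i (by omega), La.hi i (by omega),
          Lc.lo i (by omega), Ld.lo i (by omega)]
        ring)
      (by rw [Finsupp.smul_apply, smul_eq_mul, hX, Yv, Lo.hi C (by omega), La.hi C (by omega),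
            Lb.hi C (by omega), Ld.lo C (by omega)]
          ring)
      (by rw [Finsupp.smul_apply, smul_eq_mul, hX', Yv, Lo.hi C (by omega), La.hi C (by omega),
            Lb.hi C (by omega), Ld.lo C (by omega)]
          ring)
      (fun i hi => by rw [Finsupp.smul_apply, LT.lo i (by omega), smul_zero])
      (mul_ne_zero hlam0 hα) (mul_ne_zero hlam0 hr0) (mul_ne_zero hlam0 hβ)
      (mul_ne_zero hlam0 hβ') (mul_ne_zero hlam0 hγ) (mul_ne_zero hlam0 hγ')
      (fun h => hcan _ hr0 (mul_left_cancel₀ hlam0 h))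
      hne2 hne3 hinc)
  rcases hpick with h | h
  · obtain ⟨h1, h2⟩ := fin_finish he hs hn0 LX hP LT (by omega) hlam (by rw [hNX]; omega)
      (by rw [hNX]; exact hdiv) S hS1 hS2
      (fun y hy hys => by
        rw [hNX]
        exact ⟨(hres y hy hys).1, (hres y hy hys).2.1⟩) h
    exact ⟨_, add_mem (smul_mem _ _ (YV _ _ _ _)) (smul_mem _ _ hTV), h1, h2⟩
  · obtain ⟨h1, h2⟩ := fin_finish he hs hn0 LX' hP LT (by omega) hlam (by rw [hNX']; omega)
      (by rw [hNX']; exact hdiv) S hS1 hS2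
      (fun y hy hys => by
        rw [hNX']
        exact ⟨(hres y hy hys).1, (hres y hy hys).2.2⟩) h
    exact ⟨_, add_mem (smul_mem _ _ (YV _ _ _ _)) (smul_mem _ _ hTV), h1, h2⟩

theorem main_fin [Finite F] (hF : ∃ a : F, a ≠ 0 ∧ a ≠ 1) :
    ∃ A : Set (Submodule F (ℕ →₀ F)), A.Infinite ∧ IsMadFamily A ∧ ClosedInProduct (Codes A) := by
  obtain ⟨θ, h0, h1⟩ := hF
  have : Countable F := Finite.to_countable
  obtain ⟨e, he⟩ := exists_injective_nat (ℕ →₀ F)
  exact main_of_hit (R := RFin e) (RFin_good he) RFin_single (fun V hV s hs =>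
    hit_fin h0 h1 he V hV s hs)

end Pool.Agent.MadBlock
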