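import Mathlib
import Pool.Agent.MadBlock.Pick

namespace Pool.Agent.MadBlock

open Submodule

variable {F : Type*} [Field F]

/-! ### existence of a code function on an infinite countable field -/

theorem exists_strong_seq {α : Type*} (P : ∀ n : ℕ, (Fin n → α) → α → Prop)
    (h : ∀ n f, ∃ a, P n f a) : ∃ s : ℕ → α, ∀ n, P n (fun i : Fin n => s i) (s n) := by
  choose nx hnx using h
  let g : (n : ℕ) → (Fin n → α) := fun n =>
    Nat.rec (motive := fun n => Fin n → α) Fin.elim0 (fun n f => Fin.snoc f (nx n f)) n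
  have hg : ∀ n, g (n + 1) = Fin.snoc (g n) (nx n (g n)) := fun n => rfl
  let s : ℕ → α := fun n => nx n (g n)
  have hs : ∀ n, g n = fun i : Fin n => s i := by
    intro n
    induction n with
    | zero => funext i; exact i.elim0
    | succ n ih =>
      funext i
      rw [hg]
      refine Fin.lastCases ?_ ?_ i
      · rw [Fin.snoc_last]
        rfl
      · intro j
        rw [Fin.snoc_castSucc, ih]
        rfl
  refine ⟨s, fun n => ?_⟩
  rw [← hs n]
  exact hnx n (g n)

theorem exists_code [Infinite F] [Countable F] {E : Type*} [Countable E] [Nonempty E] :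
    ∃ K : F → E → Prop, (∀ l y y', K l y → K l y' → y = y') ∧ (∀ y, ¬ K 1 y) ∧
      ∀ (y : E) (C : Finset F), (1 : F) ∉ C →
        ∃ l, l ≠ 0 ∧ K l y ∧ ∀ c ∈ C, ∀ y', ¬ K (c * l) y' := by
  classical
  obtain ⟨e, he⟩ := exists_surjective_nat (E × Finset F)
  have step : ∀ (n : ℕ) (f : Fin n → F), ∃ a : F, a ≠ 0 ∧ a ≠ 1 ∧ (∀ i, a ≠ f i) ∧
      (∀ i, ∀ c ∈ (e n).2, a ≠ c⁻¹ * f i) ∧ (∀ i : Fin n, ∀ c ∈ (e i).2, a ≠ c * f i) := by
    intro n f
    obtain ⟨a, ha⟩ := Infinite.exists_notMem_finset
      ({0, 1} ∪ Finset.image f Finset.univ ∪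
        Finset.image (fun p : Fin n × F => p.2⁻¹ * f p.1) (Finset.univ ×ˢ (e n).2) ∪
        Finset.univ.biUnion (fun i : Fin n => Finset.image (fun c => c * f i) (e i).2))
    simp only [Finset.mem_union, Finset.mem_insert, Finset.mem_singleton, Finset.mem_image,
      Finset.mem_univ, true_and, Finset.mem_product, Finset.mem_biUnion, Prod.exists,
      not_or, not_exists, not_and] at ha
    obtain ⟨⟨⟨⟨h0, h1⟩, h2⟩, h3⟩, h4⟩ := ha
    exact ⟨a, h0, h1, fun i h => h2 i h.symm, fun i c hc h => h3 i c hc h.symm,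
      fun i c hc h => h4 i c hc h.symm⟩
  obtain ⟨l, hl⟩ := exists_strong_seq _ step
  have hinj : ∀ i j, l i = l j → i = j := by
    intro i j hij
    rcases lt_trichotomy i j with h | h | h
    · exact absurd hij.symm ((hl j).2.2.1 ⟨i, h⟩)
    · exact h
    · exact absurd hij ((hl i).2.2.1 ⟨j, h⟩)
  refine ⟨fun a y => ∃ n, l n = a ∧ (e n).1 = y, ?_, ?_, ?_⟩
  · rintro a y y' ⟨n, hn, hn'⟩ ⟨m, hm, hm'⟩
    have := hinj n m (by rw [hn, hm])
    subst this
    rw [← hn', ← hm']
  · rintro y ⟨n, hn, _⟩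
    exact (hl n).2.1 hn
  · intro y C hC
    obtain ⟨n, hn⟩ := he (y, C)
    refine ⟨l n, (hl n).1, ⟨n, rfl, by rw [hn]⟩, ?_⟩
    rintro c hc y' ⟨m, hm, _⟩
    have hc0 : c ≠ 0 := by
      rintro rfl
      rw [zero_mul] at hm
      exact (hl m).1 hm
    rcases lt_trichotomy m n with h | h | h
    · have := (hl n).2.2.2.1 ⟨m, h⟩ c (by rw [hn]; exact hc)
      apply this
      show l n = c⁻¹ * l m
      rw [hm, ← mul_assoc, inv_mul_cancel₀ hc0, one_mul]
    · subst h
      have : c = 1 := by
        have h1 : c * l m = 1 * l m := by rw [← hm, one_mul]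
        exact mul_right_cancel₀ (hl m).1 h1
      rw [this] at hc
      exact hC hc
    · have := (hl m).2.2.2.2 ⟨n, h⟩ c (by show c ∈ (e n).2; rw [hn]; exact hc)
      exact this hm

theorem code_avoid {E : Type*} [Infinite E] {K : F → E → Prop} [Infinite F]
    (h1 : ∀ l y y', K l y → K l y' → y = y')
    (h2 : ∀ (y : E) (C : Finset F), (1 : F) ∉ C →
        ∃ l, l ≠ 0 ∧ K l y ∧ ∀ c ∈ C, ∀ y', ¬ K (c * l) y')
    (C D : Finset F) (hC : (0 : F) ∉ C) :
    ∃ a, a ∉ D ∧ a ≠ 0 ∧ ∀ c ∈ C, ∀ y, ¬ K (c * a) y := by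
  classical
  obtain ⟨c0, hc0⟩ := Infinite.exists_notMem_finset ({0} ∪ Finset.image (fun c => c⁻¹) C)
  simp only [Finset.mem_union, Finset.mem_singleton, Finset.mem_image, not_or, not_exists,
    not_and] at hc0
  obtain ⟨hc00, hc01⟩ := hc0
  have h3 : (1 : F) ∉ Finset.image (fun c => c * c0) C := by
    intro h
    rw [Finset.mem_image] at h
    obtain ⟨c, hc, hc'⟩ := h
    apply hc01 c hc
    have hcne : c ≠ 0 := by rintro rfl; exact hC hc
    exact (eq_inv_of_mul_eq_one_right hc').symm
  have h4 : ∀ y, ∃ l, l ≠ 0 ∧ K l y ∧ ∀ c ∈ Finset.image (fun c => c * c0) C, ∀ y',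
      ¬ K (c * l) y' := fun y => h2 y _ h3
  choose l hl0 hl1 hl2 using h4
  have hinj : Function.Injective (fun y => c0 * l y) := by
    intro y y' h
    have h5 : l y = l y' := mul_left_cancel₀ hc00 h
    have h6 := hl1 y
    rw [h5] at h6
    exact h1 _ _ _ h6 (hl1 y')
  have h7 : (Set.range fun y => c0 * l y).Infinite := Set.infinite_range_of_injective hinj
  obtain ⟨a, ⟨y, rfl⟩, ha⟩ := h7.exists_notMem_finset D
  refine ⟨c0 * l y, ha, mul_ne_zero hc00 (hl0 y), ?_⟩
  intro c hc y'
  rw [← mul_assoc]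
  exact hl2 y _ (Finset.mem_image_of_mem _ hc) y'

/-! ### the parent relation for infinite fields -/

/-- `z` codes the parent `y` if (first coefficient)/(last coefficient) of `z` codes `y`. -/
def RInf (K : F → (ℕ →₀ F) → Prop) (z y : ℕ →₀ F) : Prop :=
  ∃ p q, Loc z p q ∧ K (z p / z q) y

theorem Loc.unique {z : ℕ →₀ F} {p q p' q' : ℕ} (h : Loc z p q) (h' : Loc z p' q') :
    p = p' ∧ q = q' := by
  constructor
  · by_contra hne
    rcases lt_or_gt_of_ne hne with h1 | h1
    · exact h.fst (h'.lo _ h1)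
    · exact h'.fst (h.lo _ h1)
  · by_contra hne
    rcases lt_or_gt_of_ne hne with h1 | h1
    · exact h'.lst (h.hi _ h1)
    · exact h.lst (h'.hi _ h1)

theorem RInf_good {K : F → (ℕ →₀ F) → Prop} (h1 : ∀ l y y', K l y → K l y' → y = y') :
    Good (RInf K) := by
  constructor
  · rintro z y y' ⟨p, q, h, hK⟩ ⟨p', q', h', hK'⟩
    obtain ⟨rfl, rfl⟩ := h.unique h'
    exact h1 _ _ _ hK hK'
  · rintro y ⟨p, q, h, _⟩
    exact h.fst rfl

theorem RInf_single {K : F → (ℕ →₀ F) → Prop} (h1 : ∀ y, ¬ K 1 y) (n : ℕ) (y : ℕ →₀ F) :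
    ¬ RInf K (Finsupp.single n 1) y := by
  rintro ⟨p, q, h, hK⟩
  have hp : p = n := by
    by_contra hne
    exact h.fst (Finsupp.single_eq_of_ne hne)
  have hq : q = n := by
    by_contra hne
    exact h.lst (Finsupp.single_eq_of_ne hne)
  rw [hp, hq] at hK
  simp at hK
  exact h1 y hK

theorem hit_inf [Infinite F] [Infinite (ℕ →₀ F)] {K : F → (ℕ →₀ F) → Prop}
    (h1 : ∀ l y y', K l y → K l y' → y = y')
    (h2 : ∀ (y : ℕ →₀ F) (C : Finset F), (1 : F) ∉ C →
        ∃ l, l ≠ 0 ∧ K l y ∧ ∀ c ∈ C, ∀ y', ¬ K (c * l) y')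
    (V : Submodule F (ℕ →₀ F)) (hV : Rich (RInf K) V) (s : ℕ →₀ F) (hs : Node (RInf K) s) :
    ∃ w ∈ V, G (RInf K) w ∧ RInf K w s := by
  classical
  have hR : Good (RInf K) := RInf_good h1
  obtain ⟨n0, hn0⟩ : ∃ n0, ∀ i, n0 ≤ i → s i = 0 := by
    refine ⟨s.support.sup id + 1, fun i hi => ?_⟩
    by_contra h
    have : i ≤ s.support.sup id := Finset.le_sup (f := id) (Finsupp.mem_support_iff.mpr h)
    omega
  obtain ⟨v, hv, P, q0, Lv, hP⟩ := hV.vec n0
  obtain ⟨a, ha, b, hb, A, q1, B, q2, La, Lb, hA, hAB, hinc⟩ := hV.pair (q0 + 1)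
  obtain ⟨c, hc, C, q3, Lc, hC⟩ := hV.vec (q2 + 1)
  obtain ⟨t', ht', T, q4, Lt', hT⟩ := hV.vec (q3 + 1)
  have := Lv.le; have := La.le; have := Lb.le; have := Lc.le; have := Lt'.le
  -- normalise t
  let t : ℕ →₀ F := (t' q4)⁻¹ • t'
  have htV : t ∈ V := smul_mem _ _ ht'
  have htv : ∀ i, t i = (t' q4)⁻¹ * t' i := fun i => by simp [t]
  have Lt : Loc t T q4 := by
    refine ⟨?_, ?_, ?_, ?_⟩
    · rw [htv]; exact mul_ne_zero (inv_ne_zero Lt'.lst) Lt'.fst
    · rw [htv]; exact mul_ne_zero (inv_ne_zero Lt'.lst) Lt'.lst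
    · intro i hi; rw [htv, Lt'.lo i hi, mul_zero]
    · intro i hi; rw [htv, Lt'.hi i hi, mul_zero]
  have ht1 : t q4 = 1 := by rw [htv, inv_mul_cancel₀ Lt'.lst]
  -- the first coefficient
  obtain ⟨l, hl0, hl1, hl2⟩ := h2 s ((v.support.image (fun i => v i / v P)).erase 1) (by simp)
  let α0 : F := l / v P
  have hα0 : α0 ≠ 0 := div_ne_zero hl0 Lv.fst
  have hv_code : ∀ i, v i ≠ 0 → ∀ y, K (α0 * v i) y → v i = v P ∧ y = s := by
    intro i hi y hy
    have e : α0 * v i = (v i / v P) * l := by simp only [α0]; ring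
    by_cases h3 : v i / v P = 1
    · refine ⟨(div_eq_one_iff_eq Lv.fst).mp h3, ?_⟩
      rw [e, h3, one_mul] at hy
      exact h1 _ _ _ hy hl1
    · exfalso
      rw [e] at hy
      refine hl2 _ (Finset.mem_erase.mpr ⟨h3, ?_⟩) y hy
      exact Finset.mem_image_of_mem _ (Finsupp.mem_support_iff.mpr hi)
  have avoid : ∀ (z : ℕ →₀ F) (D : Finset F), ∃ x, x ∉ D ∧ x ≠ 0 ∧
      ∀ i, z i ≠ 0 → ∀ y, ¬ K (x * z i) y := by
    intro z D
    obtain ⟨x, hx1, hx2, hx3⟩ := code_avoid h1 h2 (z.support.image (fun i => z i)) D (by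
      intro h
      rw [Finset.mem_image] at h
      obtain ⟨i, hi, hi'⟩ := h
      exact (Finsupp.mem_support_iff.mp hi) hi')
    refine ⟨x, hx1, hx2, ?_⟩
    intro i hi y
    rw [mul_comm]
    exact hx3 _ (Finset.mem_image_of_mem _ (Finsupp.mem_support_iff.mpr hi)) y
  obtain ⟨α, _, hα0', hα⟩ := avoid a ∅
  obtain ⟨α', hαα, hα0'', hα'⟩ := avoid a {α}
  obtain ⟨β, _, hβ0, hβ⟩ := avoid b ∅
  obtain ⟨β', hββ, hβ0', hβ'⟩ := avoid b {β * α' / α}
  obtain ⟨γ, _, hγ0, hγ⟩ := avoid c ∅
  obtain ⟨γ', hγγ, hγ0', hγ'⟩ := avoid c {γ * β' / β}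
  rw [Finset.mem_singleton] at hαα hββ hγγ
  -- the generic choice
  have gen : ∀ (x y z : F), x ≠ 0 → y ≠ 0 → z ≠ 0 →
      (∀ i, a i ≠ 0 → ∀ u, ¬ K (x * a i) u) → (∀ i, b i ≠ 0 → ∀ u, ¬ K (y * b i) u) →
      (∀ i, c i ≠ 0 → ∀ u, ¬ K (z * c i) u) →
      NoConf (RInf K) ((α0 • v + (x • a + (y • b + z • c))) + t) t →
      ∃ w ∈ V, G (RInf K) w ∧ RInf K w s := by
    intro x y z hx hy hz hxa hyb hzc hNC
    set w : ℕ →₀ F := (α0 • v + (x • a + (y • b + z • c))) + t with hw
    have wv : ∀ i, w i = α0 * v i + (x * a i + (y * b i + z * c i)) + t i := by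
      intro i; simp [hw]
    have hwP : w P = l := by
      rw [wv, La.lo P (by omega), Lb.lo P (by omega), Lc.lo P (by omega), Lt.lo P (by omega)]
      simp only [α0]
      have := Lv.fst
      field_simp
      ring
    have Lw : Loc w P q4 := by
      refine ⟨?_, ?_, ?_, ?_⟩
      · rw [hwP]; exact hl0
      · rw [wv, Lv.hi q4 (by omega), La.hi q4 (by omega), Lb.hi q4 (by omega),
          Lc.hi q4 (by omega), ht1]
        simp
      · intro i hi
        rw [wv, Lv.lo i (by omega), La.lo i (by omega), Lb.lo i (by omega), Lc.lo i (by omega),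
          Lt.lo i (by omega)]
        simp
      · intro i hi
        rw [wv, Lv.hi i (by omega), La.hi i (by omega), Lb.hi i (by omega), Lc.hi i (by omega),
          Lt.hi i (by omega)]
        simp
    have hwq : w q4 = 1 := by
      rw [wv, Lv.hi q4 (by omega), La.hi q4 (by omega), Lb.hi q4 (by omega),
          Lc.hi q4 (by omega), ht1]
      simp
    have hwV : w ∈ V := by
      rw [hw]
      exact add_mem (add_mem (smul_mem _ _ hv) (add_mem (smul_mem _ _ ha)
        (add_mem (smul_mem _ _ hb) (smul_mem _ _ hc)))) htV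
    have hRw : RInf K w s := ⟨P, q4, Lw, by rw [hwP, hwq, div_one]; exact hl1⟩
    refine ⟨w, hwV, ?_, hRw⟩
    rw [G_iff]
    refine ⟨⟨q4, hwq, Lw.hi⟩, ⟨s, hRw, ?_⟩, ?_⟩
    · rcases hs with rfl | hs
      · exact Or.inl rfl
      · refine Or.inr ⟨hs, ?_⟩
        intro i hi j hj
        have h3 : i < n0 := by
          by_contra h
          exact (Finsupp.mem_support_iff.mp hi) (hn0 i (by omega))
        have h4 : P ≤ j := by
          by_contra h
          exact (Finsupp.mem_support_iff.mp hj) (Lw.lo j (by omega))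
        omega
    · intro κ hκ hhd hGt u hu hconf
      by_cases htκ : t κ = 0
      · -- the code at κ
        have hκq : κ ≤ q4 := by
          by_contra h
          exact hκ (Lw.hi κ (by omega))
        have Ltl : Loc (tl κ w) κ q4 := by
          refine ⟨?_, ?_, ?_, ?_⟩
          · rw [tl_apply, if_pos (le_refl _)]; exact hκ
          · rw [tl_apply, if_pos hκq]; exact Lw.lst
          · intro i hi; rw [tl_apply, if_neg (by omega)]
          · intro i hi
            rw [tl_apply]
            split_ifs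
            · exact Lw.hi i hi
            · rfl
        obtain ⟨p', q', L', hK⟩ := hu
        obtain ⟨rfl, rfl⟩ := Ltl.unique L'
        rw [tl_apply, if_pos (le_refl _), tl_apply, if_pos hκq, hwq, div_one] at hK
        have hκP : P ≤ κ := by
          by_contra h
          exact hκ (Lw.lo κ (by omega))
        rcases lt_or_ge κ A with hA1 | hA1
        · -- inside v
          have e : w κ = α0 * v κ := by
            rw [wv, La.lo κ (by omega), Lb.lo κ (by omega), Lc.lo κ (by omega), htκ]
            simp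
          rw [e] at hK
          have hvκ : v κ ≠ 0 := by
            intro h
            rw [e, h, mul_zero] at hκ
            exact hκ rfl
          obtain ⟨_, rfl⟩ := hv_code κ hvκ u hK
          obtain ⟨g, hg, k, hk⟩ := hconf
          obtain ⟨i, hi⟩ := Finsupp.support_nonempty_iff.mpr hhd
          have hi' := Finsupp.mem_support_iff.mp hi
          have h5 : g i ≠ 0 := by
            intro h
            apply hi'
            rw [← hk, tl_apply]
            split_ifs
            · exact h
            · rfl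
          obtain ⟨j, hj, hij⟩ := node_supp hR u hs g hg i (Finsupp.mem_support_iff.mpr h5)
          have h6 : j < n0 := by
            by_contra h
            exact (Finsupp.mem_support_iff.mp hj) (hn0 j (by omega))
          rw [hd_apply] at hi'
          split_ifs at hi' with h7
          · exact hi' (Lw.lo i (by omega))
          · exact hi' rfl
        · rcases lt_or_ge κ B with hB1 | hB1
          · have e : w κ = x * a κ := by
              rw [wv, Lv.hi κ (by omega), Lb.lo κ (by omega), Lc.lo κ (by omega), htκ]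
              simp
            rw [e] at hK
            refine hxa κ ?_ u hK
            intro h
            rw [e, h, mul_zero] at hκ
            exact hκ rfl
          · rcases lt_or_ge κ C with hC1 | hC1
            · have e : w κ = y * b κ := by
                rw [wv, Lv.hi κ (by omega), La.hi κ (by omega), Lc.lo κ (by omega), htκ]
                simp
              rw [e] at hK
              refine hyb κ ?_ u hK
              intro h
              rw [e, h, mul_zero] at hκ
              exact hκ rfl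
            · have e : w κ = z * c κ := by
                rw [wv, Lv.hi κ (by omega), La.hi κ (by omega), Lb.hi κ (by omega), htκ]
                simp
              rw [e] at hK
              refine hzc κ ?_ u hK
              intro h
              rw [e, h, mul_zero] at hκ
              exact hκ rfl
      · exact hNC κ htκ hGt u hu hconf
  -- pick one of the two candidates
  have ev : ∀ (x y z : F) (i : ℕ), (α0 • v + (x • a + (y • b + z • c))) i =
      α0 * v i + (x * a i + (y * b i + z * c i)) := by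
    intro x y z i; simp
  have hpick := pick hR (X := α0 • v + (α • a + (β • b + γ • c)))
    (X' := α0 • v + (α' • a + (β' • b + γ' • c))) (t := t) (q := T)
    (fun i hi => by
      rw [ev, Lv.hi i (by omega), La.hi i (by omega), Lb.hi i (by omega), Lc.hi i (by omega)]
      simp)
    (fun i hi => by
      rw [ev, Lv.hi i (by omega), La.hi i (by omega), Lb.hi i (by omega), Lc.hi i (by omega)]
      simp)
    Lt.lo
    (sep_vec hR (a := a) (b := b) (c := c) (P := P) (A := A) (B := B) (C := C)
      (α := α) (α' := α') (β := β) (β' := β') (γ := γ) (γ' := γ')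
      (by omega) (by omega) (by omega)
      (by rw [ev, La.lo P (by omega), Lb.lo P (by omega), Lc.lo P (by omega)]
          simpa using ⟨hα0, Lv.fst⟩)
      (fun i hi hi' => by
        rw [ev, ev, La.lo i (by omega), Lb.lo i (by omega), Lc.lo i (by omega)]
        simp)
      (fun i hi => ⟨by by_contra h; exact hi (La.lo i (by omega)),
        by by_contra h; exact hi (La.hi i (by omega))⟩) La.fst
      (fun i hi => ⟨by by_contra h; exact hi (Lb.lo i (by omega)),
        by by_contra h; exact hi (Lb.hi i (by omega))⟩) Lb.fst Lc.fst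
      (fun i hi hi' => by
        rw [ev, Lv.hi i (by omega), Lb.lo i (by omega), Lc.lo i (by omega)]; simp)
      (fun i hi hi' => by
        rw [ev, Lv.hi i (by omega), Lb.lo i (by omega), Lc.lo i (by omega)]; simp)
      (fun i hi hi' => by
        rw [ev, Lv.hi i (by omega), La.hi i (by omega), Lc.lo i (by omega)]; simp)
      (fun i hi hi' => by
        rw [ev, Lv.hi i (by omega), La.hi i (by omega), Lc.lo i (by omega)]; simp)
      (by rw [ev, Lv.hi C (by omega), La.hi C (by omega), Lb.hi C (by omega)]; simp)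
      (by rw [ev, Lv.hi C (by omega), La.hi C (by omega), Lb.hi C (by omega)]; simp)
      (fun i hi => Lt.lo i (by omega))
      hα0' hα0'' hβ0 hβ0' hγ0 hγ0' (fun h => hαα h.symm) 
      (fun h => hββ (by field_simp; rw [h]))
      (fun h => hγγ (by field_simp; rw [h])) hinc)
  rcases hpick with h | h
  · exact gen α β γ hα0' hβ0 hγ0 hα hβ hγ h
  · exact gen α' β' γ' hα0'' hβ0' hγ0' hα' hβ' hγ' h

theorem main_inf [Infinite F] [Countable F] :
    ∃ A : Set (Submodule F (ℕ →₀ F)), A.Infinite ∧ IsMadFamily A ∧ ClosedInProduct (Codes A) := by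
  obtain ⟨K, h1, h2, h3⟩ := exists_code (F := F) (E := (ℕ →₀ F))
  exact main_of_hit (R := RInf K) (RInf_good h1) (RInf_single h2) (fun V hV s hs =>
    hit_inf h1 h3 V hV s hs)

end Pool.Agent.MadBlock
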